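import Pool.Agent.H143FP.Defs

/-!
# Fractal permutons: the combinatorial core
-/

open MeasureTheory ProbabilityTheory Filter Topology

set_option linter.unusedSectionVars false

namespace Pool.Agent.H143FP

/-- `Tuple.sort` depends only on the order relation. -/
lemma sort_congr {n : ℕ} {f g : Fin n → ℝ} (h : ∀ s t, f s ≤ f t ↔ g s ≤ g t) :
    Tuple.sort f = Tuple.sort g := by
  rw [Tuple.eq_sort_iff]
  refine ⟨fun i j hij => (h _ _).1 (Tuple.monotone_sort f hij), fun i j hij he => ?_⟩
  have h1 : f (Tuple.sort f i) = f (Tuple.sort f j) :=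
    le_antisymm ((h _ _).2 he.le) ((h _ _).2 he.ge)
  exact (Tuple.eq_sort_iff.1 (rfl : Tuple.sort f = Tuple.sort f)).2 i j hij h1

lemma le_of_sort_eq {n : ℕ} {f g : Fin n → ℝ} (h : Tuple.sort f = Tuple.sort g) {s t : Fin n}
    (hst : f s < f t) : g s ≤ g t := by
  obtain ⟨i, rfl⟩ := (Tuple.sort f).surjective s
  obtain ⟨j, rfl⟩ := (Tuple.sort f).surjective t
  have hij : i ≤ j := by
    by_contra hcon
    push Not at hcon
    exact absurd (Tuple.monotone_sort f hcon.le) (not_le.2 hst)
  have h2 := Tuple.monotone_sort g hij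
  rw [← h] at h2
  exact h2

section Core

variable {n q : ℕ} {C : Type*} [Fintype C] [DecidableEq C] (cn rn : C → ℕ)
  (u v : Fin n → ℝ) (L : ℕ)

/-- scaled `x`-coordinates -/
noncomputable def xval (w : Fin n → C) (a b : Fin n → Fin q) (s : Fin n) : ℝ :=
  (cn (w s) : ℝ) * (q * q) + ((a s : ℕ) : ℝ) * q + ((b s : ℕ) : ℝ) + u s

/-- the good cells -/
def Good (w : Fin n → C) (a b : Fin n → Fin q) (i : C) : Prop :=
  (Finset.univ.filter fun s => w s = i).card ≤ L ∧
    (∀ s t, w s = i → w t = i → a s = a t → s = t) ∧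
    (∀ s t, w s = i → w t = i → b s = b t → s = t)

open Classical in
/-- the labels: good cells are kept, points of bad cells are separated -/
noncomputable def flab (w : Fin n → C) (a b : Fin n → Fin q) (s : Fin n) : C ⊕ Fin n :=
  if Good L w a b (w s) then Sum.inl (w s) else Sum.inr s

open Classical in
/-- the admissible moves -/
noncomputable def moves (w : Fin n → C) (a b : Fin n → Fin q) : Finset (Equiv.Perm (Fin n)) :=
  Finset.univ.filter fun γ => flab L w a b ∘ γ = flab L w a b

variable {L}

lemma mem_moves {w : Fin n → C} {a b : Fin n → Fin q} {γ : Equiv.Perm (Fin n)}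
    (h : γ ∈ moves L w a b) :
    (∀ s, w (γ s) = w s) ∧ (∀ s, ¬ Good L w a b (w s) → γ s = s) := by
  classical
  have h1 : flab L w a b ∘ γ = flab L w a b := (Finset.mem_filter.1 h).2
  have h2 : ∀ s, flab L w a b (γ s) = flab L w a b s := fun s => congrFun h1 s
  have key : ∀ s, ¬ Good L w a b (w s) → γ s = s := by
    intro s hs
    have h3 := h2 s
    have h4 : flab L w a b s = Sum.inr s := by simp [flab, hs]
    rw [h4] at h3
    by_cases hg : Good L w a b (w (γ s))
    · simp [flab, hg] at h3
    · simpa [flab, hg] using h3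
  refine ⟨fun s => ?_, key⟩
  by_cases hs : Good L w a b (w s)
  · have h3 := h2 s
    have h4 : flab L w a b s = Sum.inl (w s) := by simp [flab, hs]
    rw [h4] at h3
    by_cases hg : Good L w a b (w (γ s))
    · simpa [flab, hg] using h3
    · simp [flab, hg] at h3
  · rw [key s hs]

lemma good_comp {w : Fin n → C} {a b : Fin n → Fin q} {γ : Equiv.Perm (Fin n)}
    (hw : ∀ s, w (γ s) = w s) (i : C) :
    Good L w a (b ∘ γ) i ↔ Good L w a b i := by
  unfold Good
  have : (∀ s t, w s = i → w t = i → (b ∘ γ) s = (b ∘ γ) t → s = t) ↔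
      (∀ s t, w s = i → w t = i → b s = b t → s = t) := by
    constructor
    · intro h s t hs ht hb
      obtain ⟨s', rfl⟩ := γ.surjective s
      obtain ⟨t', rfl⟩ := γ.surjective t
      rw [hw] at hs ht
      rw [h s' t' hs ht hb]
    · intro h s t hs ht hb
      exact γ.injective (h (γ s) (γ t) (by rw [hw]; exact hs) (by rw [hw]; exact ht) hb)
  rw [this]

lemma flab_comp {w : Fin n → C} {a b : Fin n → Fin q} {γ : Equiv.Perm (Fin n)}
    (hw : ∀ s, w (γ s) = w s) : flab L w a (b ∘ γ) = flab L w a b := by
  classical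
  funext s
  simp only [flab, good_comp hw]

lemma moves_comp {w : Fin n → C} {a b : Fin n → Fin q} {γ : Equiv.Perm (Fin n)}
    (hγ : γ ∈ moves L w a b) : moves L w a (b ∘ γ) = moves L w a b := by
  classical
  unfold moves
  rw [flab_comp (mem_moves hγ).1]

lemma moves_card (w : Fin n → C) (a b : Fin n → Fin q) [DecidablePred (Good L w a b)] :
    (moves L w a b).card =
      ∏ i : C, if Good L w a b i then ((Finset.univ.filter fun s => w s = i).card).factorial
        else 1 := by
  classical
  have h1 : (moves L w a b).card =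
      Fintype.card {g : Equiv.Perm (Fin n) // flab L w a b ∘ g = flab L w a b} := by
    rw [Fintype.card_subtype]
    rfl
  rw [h1, DomMulAct.stabilizer_card, Fintype.prod_sum_type]
  have h2 : ∏ s : Fin n, (Fintype.card {t // flab L w a b t = Sum.inr s}).factorial = 1 := by
    apply Finset.prod_eq_one
    intro s _
    have : Fintype.card {t // flab L w a b t = Sum.inr s} ≤ 1 := by
      rw [Fintype.card_le_one_iff_subsingleton]
      constructor
      rintro ⟨t, ht⟩ ⟨t', ht'⟩
      have e1 : t = s := by
        by_cases hg : Good L w a b (w t)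
        · simp [flab, hg] at ht
        · simpa [flab, hg] using ht
      have e2 : t' = s := by
        by_cases hg : Good L w a b (w t')
        · simp [flab, hg] at ht'
        · simpa [flab, hg] using ht'
      simp [e1, e2]
    interval_cases (Fintype.card {t // flab L w a b t = Sum.inr s}) <;> simp
  rw [h2, mul_one]
  apply Finset.prod_congr rfl
  intro i _
  by_cases hg : Good L w a b i
  · rw [if_pos hg, Fintype.card_subtype]
    congr 2
    ext s
    simp only [Finset.mem_filter, Finset.mem_univ, true_and, flab]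
    constructor
    · intro h
      by_cases hg' : Good L w a b (w s)
      · simpa [hg'] using h
      · simp [hg'] at h
    · intro h
      rw [h, if_pos hg]
  · rw [if_neg hg]
    have : Fintype.card {s // flab L w a b s = Sum.inl i} = 0 := by
      rw [Fintype.card_eq_zero_iff]
      constructor
      rintro ⟨s, hs⟩
      by_cases hg' : Good L w a b (w s)
      · have : w s = i := by simpa [flab, hg'] using hs
        exact hg (this ▸ hg')
      · simp [flab, hg'] at hs
    rw [this]; rfl

/-- order of the scaled coordinates in different cells -/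
lemma xval_lt_of_cn {w : Fin n → C} {a b a' b' : Fin n → Fin q} {s t : Fin n}
    (hu : ∀ s, 0 ≤ u s ∧ u s < 1) (h : cn (w s) < cn (w t)) :
    xval cn u w a b s < xval cn u w a' b' t := by
  unfold xval
  have h1 : ((cn (w s) : ℝ) + 1) ≤ cn (w t) := by exact_mod_cast h
  have ha : ((a s : ℕ) : ℝ) + 1 ≤ q := by exact_mod_cast (a s).isLt
  have hb : ((b s : ℕ) : ℝ) + 1 ≤ q := by exact_mod_cast (b s).isLt
  have hq : (0 : ℝ) ≤ q := by positivity
  have h2 := (hu s).2
  have h3 := (hu t).1
  have h4 : (0 : ℝ) ≤ ((a' t : ℕ) : ℝ) * q := by positivity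
  have h5 : (0 : ℝ) ≤ ((b' t : ℕ) : ℝ) := by positivity
  have h6 : (((a s : ℕ) : ℝ) + 1) * q ≤ q * q := by gcongr
  have h7 : ((cn (w s) : ℝ) + 1) * (q * q) ≤ cn (w t) * (q * q) := by gcongr
  nlinarith

/-- order of the scaled coordinates within a cell, given by the first digit -/
lemma xval_lt_of_digit {w : Fin n → C} {a b a' b' : Fin n → Fin q} {s t : Fin n}
    (hu : ∀ s, 0 ≤ u s ∧ u s < 1) (hw : w s = w t) (h : a s < a' t) :
    xval cn u w a b s < xval cn u w a' b' t := by
  unfold xval
  rw [hw]
  have ha : ((a s : ℕ) : ℝ) + 1 ≤ ((a' t : ℕ) : ℝ) := by exact_mod_cast h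
  have hb : ((b s : ℕ) : ℝ) + 1 ≤ q := by exact_mod_cast (b s).isLt
  have hq : (0 : ℝ) ≤ q := by positivity
  have h2 := (hu s).2
  have h3 := (hu t).1
  have h5 : (0 : ℝ) ≤ ((b' t : ℕ) : ℝ) := by positivity
  have h6 : (((a s : ℕ) : ℝ) + 1) * q ≤ ((a' t : ℕ) : ℝ) * q := by gcongr
  nlinarith

/-- The map from admissible moves to patterns is injective. -/
theorem moves_injOn (hcn : Function.Injective cn) (hrn : Function.Injective rn)
    (hu : ∀ s, 0 ≤ u s ∧ u s < 1) (hv : ∀ s, 0 ≤ v s ∧ v s < 1)
    (w : Fin n → C) (a b : Fin n → Fin q) {γ γ' : Equiv.Perm (Fin n)}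
    (hγ : γ ∈ moves L w a b) (hγ' : γ' ∈ moves L w a b)
    (h : pattern (fun s => (xval cn u w a (b ∘ γ) s, xval rn v w (b ∘ γ) a s)) =
      pattern (fun s => (xval cn u w a (b ∘ γ') s, xval rn v w (b ∘ γ') a s))) : γ = γ' := by
  classical
  obtain ⟨hw, hbad⟩ := mem_moves hγ
  obtain ⟨hw', hbad'⟩ := mem_moves hγ'
  -- the `x`-orders agree
  have hx : Tuple.sort (fun s => xval cn u w a (b ∘ γ) s) =
      Tuple.sort (fun s => xval cn u w a (b ∘ γ') s) := by
    apply sort_congr
    intro s t
    rcases lt_trichotomy (cn (w s)) (cn (w t)) with hlt | heq | hgt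
    · exact ⟨fun _ => (xval_lt_of_cn cn u hu hlt).le, fun _ => (xval_lt_of_cn cn u hu hlt).le⟩
    · have hwst : w s = w t := hcn heq
      by_cases hg : Good L w a b (w s)
      · rcases lt_trichotomy (a s) (a t) with halt | haeq | hagt
        · exact ⟨fun _ => (xval_lt_of_digit cn u hu hwst halt).le,
            fun _ => (xval_lt_of_digit cn u hu hwst halt).le⟩
        · have : s = t := hg.2.1 s t rfl hwst.symm haeq
          subst this
          simp
        · exact ⟨fun h0 => absurd h0 (not_le.2 (xval_lt_of_digit cn u hu hwst.symm hagt)),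
            fun h0 => absurd h0 (not_le.2 (xval_lt_of_digit cn u hu hwst.symm hagt))⟩
      · have e1 := hbad s hg
        have e2 := hbad' s hg
        have e3 := hbad t (hwst ▸ hg)
        have e4 := hbad' t (hwst ▸ hg)
        simp only [xval, Function.comp_apply, e1, e2, e3, e4]
    · exact ⟨fun h0 => absurd h0 (not_le.2 (xval_lt_of_cn cn u hu hgt)),
        fun h0 => absurd h0 (not_le.2 (xval_lt_of_cn cn u hu hgt))⟩
  -- hence the `y`-orders agree
  have hy : Tuple.sort (fun s => xval rn v w (b ∘ γ) a s) =
      Tuple.sort (fun s => xval rn v w (b ∘ γ') a s) := by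
    unfold pattern at h
    simp only at h
    rw [hx] at h
    have h2 := congrArg (fun e => (Tuple.sort (fun s => xval cn u w a (b ∘ γ') s)).symm.trans e) h
    simp only [← Equiv.trans_assoc, Equiv.symm_trans_self, Equiv.refl_trans] at h2
    have h3 := congrArg Equiv.symm h2
    simpa using h3
  have key : ∀ s t, w s = w t → b (γ s) < b (γ t) → b (γ' s) ≤ b (γ' t) := by
    intro s t hst hb
    have h1 : xval rn v w (b ∘ γ) a s < xval rn v w (b ∘ γ) a t :=
      xval_lt_of_digit rn v hv hst hb
    have h2 := le_of_sort_eq hy h1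
    by_contra hcon
    push Not at hcon
    exact absurd h2 (not_le.2 (xval_lt_of_digit rn v hv hst.symm hcon))
  have key' : ∀ s t, w s = w t → b (γ' s) < b (γ' t) → b (γ s) ≤ b (γ t) := by
    intro s t hst hb
    have h1 : xval rn v w (b ∘ γ') a s < xval rn v w (b ∘ γ') a t :=
      xval_lt_of_digit rn v hv hst hb
    have h2 := le_of_sort_eq hy.symm h1
    by_contra hcon
    push Not at hcon
    exact absurd h2 (not_le.2 (xval_lt_of_digit rn v hv hst.symm hcon))
  ext1 s
  by_cases hg : Good L w a b (w s)
  · have hinj := hg.2.2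
    have hinj2 : ∀ (δ : Equiv.Perm (Fin n)), (∀ s, w (δ s) = w s) → ∀ t, w t = w s →
        b (δ s) = b (δ t) → s = t := by
      intro δ hδ t ht hb
      exact δ.injective (hinj (δ s) (δ t) (hδ s) (by rw [hδ, ht]) hb)
    -- rank
    have hrank : ∀ (δ : Equiv.Perm (Fin n)), (∀ s, w (δ s) = w s) →
        (Finset.univ.filter fun t => w t = w s ∧ b (δ t) < b (δ s)).card =
        (Finset.univ.filter fun t => w t = w s ∧ b t < b (δ s)).card := by
      intro δ hδ
      apply Finset.card_bij (fun t _ => δ t)
      · intro t ht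
        simp only [Finset.mem_filter, Finset.mem_univ, true_and] at ht ⊢
        exact ⟨by rw [hδ]; exact ht.1, ht.2⟩
      · intro t _ t' _ h0
        exact δ.injective h0
      · intro t ht
        obtain ⟨t', rfl⟩ := δ.surjective t
        simp only [Finset.mem_filter, Finset.mem_univ, true_and] at ht
        refine ⟨t', ?_, rfl⟩
        simp only [Finset.mem_filter, Finset.mem_univ, true_and]
        exact ⟨by rw [← hδ]; exact ht.1, ht.2⟩
    have hsets : (Finset.univ.filter fun t => w t = w s ∧ b (γ t) < b (γ s)) =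
        (Finset.univ.filter fun t => w t = w s ∧ b (γ' t) < b (γ' s)) := by
      ext t
      simp only [Finset.mem_filter, Finset.mem_univ, true_and]
      constructor
      · rintro ⟨h1, h2⟩
        refine ⟨h1, lt_of_le_of_ne (key t s h1 h2) ?_⟩
        intro h3
        have := hinj2 γ' hw' t h1 h3.symm
        subst this
        exact lt_irrefl _ h2
      · rintro ⟨h1, h2⟩
        refine ⟨h1, lt_of_le_of_ne (key' t s h1 h2) ?_⟩
        intro h3
        have := hinj2 γ hw t h1 h3.symm
        subst this
        exact lt_irrefl _ h2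
    have hcard : (Finset.univ.filter fun t => w t = w s ∧ b t < b (γ s)).card =
        (Finset.univ.filter fun t => w t = w s ∧ b t < b (γ' s)).card := by
      rw [← hrank γ hw, ← hrank γ' hw', hsets]
    have hstrict : ∀ x y : Fin n, w x = w s → w y = w s → b x < b y →
        (Finset.univ.filter fun t => w t = w s ∧ b t < b x).card <
        (Finset.univ.filter fun t => w t = w s ∧ b t < b y).card := by
      intro x y hx hy hxy
      apply Finset.card_lt_card
      rw [Finset.ssubset_iff_of_subset]
      · refine ⟨x, ?_, ?_⟩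
        · simp [hx, hxy]
        · simp
      · intro t ht
        simp only [Finset.mem_filter, Finset.mem_univ, true_and] at ht ⊢
        exact ⟨ht.1, ht.2.trans hxy⟩
    have heq : b (γ s) = b (γ' s) := by
      rcases lt_trichotomy (b (γ s)) (b (γ' s)) with h1 | h1 | h1
      · exact absurd hcard (hstrict _ _ (hw s) (hw' s) h1).ne
      · exact h1
      · exact absurd hcard (hstrict _ _ (hw' s) (hw s) h1).ne'
    exact hinj _ _ (hw s) (hw' s) heq
  · rw [hbad s hg, hbad' s hg]

end Core

end Pool.Agent.H143FP
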