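import Pool.Agent.H143FP.Weak

/-!
# Fractal permutons: construction of the self-similar permuton
-/

open MeasureTheory ProbabilityTheory Filter Topology
open scoped ENNReal

set_option linter.unusedSectionVars false

namespace Pool.Agent.H143FP

variable {d : ℕ}

lemma ae_mem_map {α β : Type*} [MeasurableSpace α] [MeasurableSpace β] {f : α → β}
    (hf : Measurable f) (m : Measure α) {S : Set β} (hS : MeasurableSet S) :
    (∀ᵐ y ∂(m.map f), y ∈ S) ↔ ∀ᵐ x ∂m, f x ∈ S := ae_map_iff hf.aemeasurable hS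

/-- the inverse branches of `x ↦ d x mod 1` -/
noncomputable def gg (d : ℕ) (i : Fin d) (x : ℝ) : ℝ := (((i : ℕ) : ℝ) + x) / d

/-- Lebesgue measure on `[0,1)` -/
noncomputable def lam : Measure ℝ := volume.restrict (Set.Ico (0 : ℝ) 1)

instance : IsProbabilityMeasure lam := ⟨by simp [lam]⟩

lemma measurable_gg (i : Fin d) : Measurable (gg d i) := by
  unfold gg
  fun_prop

lemma floor_gg (hd : 0 < d) (i : Fin d) {x : ℝ} (hx : x ∈ Set.Ico (0 : ℝ) 1) :
    ⌊(d : ℝ) * gg d i x⌋₊ = (i : ℕ) := by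
  have hdR : (0 : ℝ) < d := by exact_mod_cast hd
  have : (d : ℝ) * gg d i x = ((i : ℕ) : ℝ) + x := by unfold gg; field_simp
  rw [this, Nat.floor_eq_iff (by have := hx.1; positivity)]
  exact ⟨by linarith [hx.1], by linarith [hx.2]⟩

lemma gg_mem (hd : 0 < d) (i : Fin d) {x : ℝ} (hx : x ∈ Set.Ico (0 : ℝ) 1) :
    gg d i x ∈ Set.Ico (0 : ℝ) 1 := by
  have hdR : (0 : ℝ) < d := by exact_mod_cast hd
  have hi : ((i : ℕ) : ℝ) + 1 ≤ d := by exact_mod_cast i.isLt
  unfold gg
  constructor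
  · have := hx.1; positivity
  · rw [div_lt_one hdR]; linarith [hx.2]

lemma lam_self (hd : 0 < d) : lam = ∑ i : Fin d, (d : ℝ≥0∞)⁻¹ • lam.map (gg d i) := by
  classical
  have hdR : (0 : ℝ) < d := by exact_mod_cast hd
  have hd0 : (d : ℝ≥0∞) ≠ 0 := by exact_mod_cast hd.ne'
  ext E hE
  rw [Measure.finsetSum_apply]
  set P : Fin d → Set ℝ := fun i => E ∩ (Set.Ico (0 : ℝ) 1 ∩ {x | ⌊(d : ℝ) * x⌋₊ = (i : ℕ)}) with hP
  have hPm : ∀ i, MeasurableSet (P i) := by
    intro i
    apply hE.inter (measurableSet_Ico.inter _)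
    exact (Nat.measurable_floor.comp (measurable_const.mul measurable_id)) (measurableSet_singleton _)
  have h1 : ∀ i : Fin d, ((d : ℝ≥0∞)⁻¹ • lam.map (gg d i)) E = volume (P i) := by
    intro i
    rw [Measure.smul_apply, Measure.map_apply (measurable_gg i) hE, smul_eq_mul, lam,
      Measure.restrict_apply (measurable_gg i hE)]
    have hset : gg d i ⁻¹' E ∩ Set.Ico (0 : ℝ) 1 = gg d i ⁻¹' (P i) := by
      ext x
      simp only [Set.mem_inter_iff, Set.mem_preimage, hP]
      constructor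
      · rintro ⟨hxE, hx⟩
        exact ⟨hxE, gg_mem hd i hx, floor_gg hd i hx⟩
      · rintro ⟨hxE, hx, hf⟩
        refine ⟨hxE, ?_⟩
        have e : (d : ℝ) * gg d i x = ((i : ℕ) : ℝ) + x := by unfold gg; field_simp
        have hf' : ⌊(d : ℝ) * gg d i x⌋₊ = (i : ℕ) := hf
        have hnn : 0 ≤ (d : ℝ) * gg d i x := mul_nonneg hdR.le hx.1
        rw [Nat.floor_eq_iff hnn, e] at hf'
        exact ⟨by linarith [hf'.1], by linarith [hf'.2]⟩
    rw [hset]
    have hpre : gg d i ⁻¹' (P i) = (fun x => ((i : ℕ) : ℝ) + x) ⁻¹' ((fun y => (d : ℝ)⁻¹ * y) ⁻¹' (P i)) := by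
      ext x
      simp only [Set.mem_preimage, gg]
      rw [div_eq_inv_mul]
    rw [hpre, measure_preimage_add, Real.volume_preimage_mul_left (inv_ne_zero hdR.ne'), inv_inv,
      abs_of_pos hdR, ENNReal.ofReal_natCast, ← mul_assoc,
      ENNReal.inv_mul_cancel hd0 (ENNReal.natCast_ne_top d), one_mul]
  rw [Finset.sum_congr rfl (fun i _ => h1 i), ← measure_biUnion_finset]
  · rw [lam, Measure.restrict_apply hE]
    congr 1
    ext x
    simp only [Set.mem_inter_iff, Set.mem_iUnion, Finset.mem_univ, exists_true_left, hP]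
    constructor
    · rintro ⟨hxE, hx⟩
      have hlt : ⌊(d : ℝ) * x⌋₊ < d := by
        rw [Nat.floor_lt (mul_nonneg hdR.le hx.1)]
        calc (d : ℝ) * x < d * 1 := by
              apply mul_lt_mul_of_pos_left hx.2 hdR
          _ = d := mul_one _
      exact ⟨⟨_, hlt⟩, hxE, hx, rfl⟩
    · rintro ⟨i, hxE, hx, _⟩
      exact ⟨hxE, hx⟩
  · intro i _ j _ hij
    rw [Function.onFun, Set.disjoint_left]
    rintro x ⟨_, _, h1⟩ ⟨_, _, h2⟩
    apply hij
    apply Fin.ext
    exact (show ⌊(d : ℝ) * x⌋₊ = (i : ℕ) from h1).symm.trans h2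
  · intro i _
    exact hPm i

section Phi

variable [NeZero d] (σ : Equiv.Perm (Fin d))

/-- the first digit -/
noncomputable def dig (d : ℕ) [NeZero d] (x : ℝ) : Fin d := Fin.ofNat d ⌊(d : ℝ) * x⌋₊

/-- the expanding map -/
noncomputable def expand (d : ℕ) (x : ℝ) : ℝ := Int.fract ((d : ℝ) * x)

/-- the terms of the series defining `phi` -/
noncomputable def term (x : ℝ) (k : ℕ) : ℝ :=
  ((σ (dig d ((expand d)^[k] x)) : ℕ) : ℝ) / (d : ℝ) ^ (k + 1)

/-- the map applying `σ` to all digits -/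
noncomputable def phi (x : ℝ) : ℝ := ∑' k, term σ x k

lemma term_nonneg (x : ℝ) (k : ℕ) : 0 ≤ term σ x k := by unfold term; positivity

lemma term_sum_le (x : ℝ) (N : ℕ) :
    ∑ k ∈ Finset.range N, term σ x k ≤ 1 - 1 / (d : ℝ) ^ N := by
  have hdR : (0 : ℝ) < d := by exact_mod_cast Nat.pos_of_ne_zero (NeZero.ne d)
  induction N with
  | zero => simp
  | succ N ih =>
    rw [Finset.sum_range_succ]
    have h1 : term σ x N ≤ ((d : ℝ) - 1) / (d : ℝ) ^ (N + 1) := by
      unfold term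
      gcongr
      have : ((σ (dig d ((expand d)^[N] x)) : ℕ) : ℝ) + 1 ≤ d := by
        exact_mod_cast (σ (dig d ((expand d)^[N] x))).isLt
      linarith
    have h2 : ((d : ℝ) - 1) / (d : ℝ) ^ (N + 1) = 1 / (d : ℝ) ^ N - 1 / (d : ℝ) ^ (N + 1) := by
      rw [pow_succ]; field_simp
    linarith

lemma term_summable (x : ℝ) : Summable (term σ x) := by
  have hdR : (0 : ℝ) < d := by exact_mod_cast Nat.pos_of_ne_zero (NeZero.ne d)
  apply summable_of_sum_range_le (c := 1) (term_nonneg σ x)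
  intro N
  have := term_sum_le σ x N
  have h2 : (0 : ℝ) ≤ 1 / (d : ℝ) ^ N := by positivity
  linarith

lemma phi_nonneg (x : ℝ) : 0 ≤ phi σ x := tsum_nonneg (term_nonneg σ x)

lemma phi_le_one (x : ℝ) : phi σ x ≤ 1 := by
  have hdR : (0 : ℝ) < d := by exact_mod_cast Nat.pos_of_ne_zero (NeZero.ne d)
  apply Real.tsum_le_of_sum_range_le (term_nonneg σ x)
  intro N
  have := term_sum_le σ x N
  have h2 : (0 : ℝ) ≤ 1 / (d : ℝ) ^ N := by positivity
  linarith

lemma measurable_expand : Measurable (expand d) := by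
  unfold expand
  exact measurable_fract.comp (measurable_const.mul measurable_id)

lemma measurable_dig : Measurable (dig d) := by
  unfold dig
  exact (measurable_from_top (f := fun m : ℕ => Fin.ofNat d m)).comp
    (Nat.measurable_floor.comp (measurable_const.mul measurable_id))

lemma measurable_term (k : ℕ) : Measurable (fun x => term σ x k) := by
  unfold term
  apply Measurable.div_const
  exact (measurable_of_countable (fun i : Fin d => ((σ i : ℕ) : ℝ))).comp
    (measurable_dig.comp (measurable_expand.iterate k))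

lemma measurable_phi : Measurable (phi σ) := by
  apply measurable_of_tendsto_metrizable
    (f := fun N x => ∑ k ∈ Finset.range N, term σ x k)
  · intro N
    exact Finset.measurable_sum _ fun k _ => measurable_term σ k
  · rw [tendsto_pi_nhds]
    intro x
    exact (term_summable σ x).hasSum.tendsto_sum_nat

lemma dig_gg (i : Fin d) {x : ℝ} (hx : x ∈ Set.Ico (0 : ℝ) 1) : dig d (gg d i x) = i := by
  unfold dig
  rw [floor_gg (Nat.pos_of_ne_zero (NeZero.ne d)) i hx]
  apply Fin.ext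
  simp [Fin.ofNat, Nat.mod_eq_of_lt i.isLt]

lemma expand_gg (i : Fin d) {x : ℝ} (hx : x ∈ Set.Ico (0 : ℝ) 1) : expand d (gg d i x) = x := by
  have hdR : (0 : ℝ) < d := by exact_mod_cast Nat.pos_of_ne_zero (NeZero.ne d)
  have : (d : ℝ) * gg d i x = x + ((i : ℕ) : ℝ) := by unfold gg; field_simp; ring
  unfold expand
  rw [this, Int.fract_add_natCast, Int.fract_eq_self]
  exact hx

lemma phi_gg (i : Fin d) {x : ℝ} (hx : x ∈ Set.Ico (0 : ℝ) 1) :
    phi σ (gg d i x) = (((σ i : ℕ) : ℝ) + phi σ x) / d := by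
  have hdR : (0 : ℝ) < d := by exact_mod_cast Nat.pos_of_ne_zero (NeZero.ne d)
  unfold phi
  rw [(term_summable σ _).tsum_eq_zero_add]
  have h0 : term σ (gg d i x) 0 = ((σ i : ℕ) : ℝ) / d := by
    simp [term, dig_gg i hx]
  have h1 : ∀ k, term σ (gg d i x) (k + 1) = term σ x k / d := by
    intro k
    unfold term
    rw [Function.iterate_succ_apply, expand_gg i hx, pow_succ (d : ℝ) (k + 1), div_div]
  simp only [h0, h1]
  rw [tsum_div_const, add_div]

end Phi

section Mu

variable [NeZero d] (σ : Equiv.Perm (Fin d))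

/-- the self-similar measure -/
noncomputable def muS : Measure (ℝ × ℝ) := lam.map (fun x => (x, phi σ x))

lemma measurable_graph : Measurable (fun x => (x, phi σ x)) :=
  measurable_id.prodMk (measurable_phi σ)

instance : IsProbabilityMeasure (muS σ) :=
  Measure.isProbabilityMeasure_map (measurable_graph σ).aemeasurable

lemma selfSim_muS : SelfSim σ (muS σ) := by
  have hd : 0 < d := Nat.pos_of_ne_zero (NeZero.ne d)
  unfold SelfSim
  conv_lhs => rw [muS, lam_self hd]
  rw [map_sum' _ _ (measurable_graph σ)]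
  apply Finset.sum_congr rfl
  intro i _
  rw [Measure.map_smul, Measure.map_map (measurable_graph σ) (measurable_gg i), muS,
    Measure.map_map (measurable_TT σ i) (measurable_graph σ)]
  congr 1
  apply Measure.map_congr
  have : ∀ᵐ x ∂lam, x ∈ Set.Ico (0 : ℝ) 1 := by
    unfold lam
    exact ae_restrict_mem measurableSet_Ico
  filter_upwards [this] with x hx
  simp only [Function.comp_apply, TT]
  rw [phi_gg σ i hx]
  rfl

lemma muS_mem : ∀ᵐ z ∂(muS σ), z ∈ Set.Icc (0 : ℝ × ℝ) 1 := by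
  unfold muS
  rw [ae_mem_map (measurable_graph σ) _ measurableSet_Icc]
  have : ∀ᵐ x ∂lam, x ∈ Set.Ico (0 : ℝ) 1 := by
    unfold lam
    exact ae_restrict_mem measurableSet_Ico
  filter_upwards [this] with x hx
  exact ⟨⟨hx.1, phi_nonneg σ x⟩, ⟨hx.2.le, phi_le_one σ x⟩⟩

lemma lam_eq : lam = volume.restrict (Set.Icc (0 : ℝ) 1) := by
  unfold lam
  exact Measure.restrict_congr_set Ico_ae_eq_Icc

lemma muS_fst : (muS σ).map Prod.fst = lam := by
  unfold muS
  rw [Measure.map_map measurable_fst (measurable_graph σ)]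
  have : (Prod.fst ∘ fun x => (x, phi σ x)) = id := rfl
  rw [this, Measure.map_id]

/-- uniqueness of the self-similar measure -/
lemma selfSim_unique (hd : 2 ≤ d) {μ μ' : Measure (ℝ × ℝ)} [IsProbabilityMeasure μ]
    [IsProbabilityMeasure μ'] (h : SelfSim σ μ) (h' : SelfSim σ μ')
    (hμ : ∀ᵐ z ∂μ, z ∈ Set.Icc (0 : ℝ × ℝ) 1) (hμ' : ∀ᵐ z ∂μ', z ∈ Set.Icc (0 : ℝ × ℝ) 1) :
    μ = μ' :=
  weakLimit_unique (weakLimit_of_selfSim hd h hμ) (weakLimit_of_selfSim hd h' hμ')

lemma muS_snd (hd : 2 ≤ d) : (muS σ).map Prod.snd = lam := by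
  have hd0 : 0 < d := by omega
  have hd2 : Measurable (fun z : ℝ × ℝ => (z.2, z.2)) := by fun_prop
  have hd1 : Measurable (fun x : ℝ => (x, x)) := by fun_prop
  have p1 : IsProbabilityMeasure ((muS σ).map (fun z : ℝ × ℝ => (z.2, z.2))) :=
    Measure.isProbabilityMeasure_map hd2.aemeasurable
  have p2 : IsProbabilityMeasure (lam.map (fun x : ℝ => (x, x))) :=
    Measure.isProbabilityMeasure_map hd1.aemeasurable
  have s1 : SelfSim (Equiv.refl (Fin d)) ((muS σ).map (fun z : ℝ × ℝ => (z.2, z.2))) := by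
    unfold SelfSim
    have h := selfSim_muS σ
    unfold SelfSim at h
    conv_lhs => rw [h]
    rw [map_sum' _ _ hd2]
    apply Fintype.sum_equiv σ
    intro i
    rw [Measure.map_smul, Measure.map_map hd2 (measurable_TT σ i),
      Measure.map_map (measurable_TT _ _) hd2]
    rfl
  have s2 : SelfSim (Equiv.refl (Fin d)) (lam.map (fun x : ℝ => (x, x))) := by
    unfold SelfSim
    conv_lhs => rw [lam_self hd0]
    rw [map_sum' _ _ hd1]
    apply Finset.sum_congr rfl
    intro i _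
    rw [Measure.map_smul, Measure.map_map hd1 (measurable_gg i),
      Measure.map_map (measurable_TT _ _) hd1]
    rfl
  have key := selfSim_unique (Equiv.refl (Fin d)) hd s1 s2 (by
      rw [ae_mem_map hd2 _ measurableSet_Icc]
      filter_upwards [muS_mem σ] with z hz
      exact ⟨⟨hz.1.2, hz.1.2⟩, ⟨hz.2.2, hz.2.2⟩⟩) (by
      rw [ae_mem_map hd1 _ measurableSet_Icc]
      have : ∀ᵐ x ∂lam, x ∈ Set.Ico (0 : ℝ) 1 := by
        unfold lam
        exact ae_restrict_mem measurableSet_Ico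
      filter_upwards [this] with x hx
      exact ⟨⟨hx.1, hx.1⟩, ⟨hx.2.le, hx.2.le⟩⟩)
  have h3 : ((muS σ).map (fun z : ℝ × ℝ => (z.2, z.2))).map Prod.fst =
      (lam.map (fun x : ℝ => (x, x))).map Prod.fst := by rw [key]
  rw [Measure.map_map measurable_fst hd2, Measure.map_map measurable_fst hd1] at h3
  have e1 : (Prod.fst ∘ fun z : ℝ × ℝ => (z.2, z.2)) = Prod.snd := rfl
  have e2 : (Prod.fst ∘ fun x : ℝ => (x, x)) = id := rfl
  rw [e1, e2, Measure.map_id] at h3
  exact h3

theorem isPermuton_muS (hd : 2 ≤ d) : IsPermuton (muS σ) :=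
  ⟨by rw [muS_fst, lam_eq], by rw [muS_snd σ hd, lam_eq]⟩

lemma muS_lt (hd : 2 ≤ d) :
    ∀ᵐ z ∂(muS σ), (0 ≤ z.1 ∧ z.1 < 1) ∧ (0 ≤ z.2 ∧ z.2 < 1) := by
  have this : ∀ᵐ x ∂lam, x ∈ Set.Ico (0 : ℝ) 1 := by
    unfold lam
    exact ae_restrict_mem measurableSet_Ico
  have h1 : ∀ᵐ z ∂(muS σ), z.1 ∈ Set.Ico (0 : ℝ) 1 := by
    have := this
    rw [← muS_fst σ, ae_mem_map measurable_fst _ measurableSet_Ico] at this
    exact this
  have h2 : ∀ᵐ z ∂(muS σ), z.2 ∈ Set.Ico (0 : ℝ) 1 := by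
    have := this
    rw [← muS_snd σ hd, ae_mem_map measurable_snd _ measurableSet_Ico] at this
    exact this
  filter_upwards [h1, h2] with z hz1 hz2
  exact ⟨⟨hz1.1, hz1.2⟩, ⟨hz2.1, hz2.2⟩⟩

end Mu

end Pool.Agent.H143FP
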