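import Mathlib

/-!
# Fractal permutons: definitions

Definitions for `MP_bd876b_pr`: the random permutation sampled from a measure on the plane, its
Shannon entropy, and the refinement procedure that defines the fractal permutons.
-/

open MeasureTheory ProbabilityTheory Filter Topology
open scoped ENNReal

namespace Pool.Agent.H143FP

/-- The permutation recorded by `n` points of the plane: list the points by increasing
`x`-coordinate and record the rank of each `y`-coordinate (`i` is sent to the rank of the
`y`-coordinate of the `i`-th point from the left). Ties, which have probability zero for a permuton,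
are broken by the label of the point. -/
noncomputable def pattern {n : ℕ} (p : Fin n → ℝ × ℝ) : Equiv.Perm (Fin n) :=
  (Tuple.sort fun i => (p i).1).trans (Tuple.sort fun i => (p i).2).symm

/-- `H_n(μ)`: the Shannon entropy (natural logarithm) of the law of the random permutation
recorded by `n` i.i.d. points of law `μ`. -/
noncomputable def samplingEntropy (μ : Measure (ℝ × ℝ)) (n : ℕ) : ℝ :=
  ∑ π : Equiv.Perm (Fin n),
    Real.negMulLog ((Measure.pi fun _ : Fin n => μ).real {p | pattern p = π})

/-- A permuton: a Borel measure on the plane whose two marginals are the Lebesgue measure of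
`[0,1]`. -/
structure IsPermuton (μ : Measure (ℝ × ℝ)) : Prop where
  fst : μ.map Prod.fst = volume.restrict (Set.Icc (0 : ℝ) 1)
  snd : μ.map Prod.snd = volume.restrict (Set.Icc (0 : ℝ) 1)

variable {d : ℕ}

/-- The lower left corner of the kept square with address `w`. An address lists the column indices
chosen at the successive refinement steps, the most recent one first; `τ w` is the permutation used
for the refinement step on the kept square with address `w` (columns and rows are numbered from
`0`). -/
noncomputable def corner (τ : List (Fin d) → Equiv.Perm (Fin d)) : List (Fin d) → ℝ × ℝ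
  | [] => (0, 0)
  | i :: w => corner τ w +
      (((i : ℕ) : ℝ) / (d : ℝ) ^ (w.length + 1), ((τ w i : ℕ) : ℝ) / (d : ℝ) ^ (w.length + 1))

/-- The kept square with address `w`; its side is `d ^ (-|w|)`. -/
noncomputable def square (τ : List (Fin d) → Equiv.Perm (Fin d)) (w : List (Fin d)) :
    Set (ℝ × ℝ) :=
  Set.Icc (corner τ w) (corner τ w + (1 / (d : ℝ) ^ w.length, 1 / (d : ℝ) ^ w.length))

/-- The measure `μ_n` after `n` rounds of refinement: each of the `d ^ n` kept squares of level `n`
carries mass `d ^ (-n)`, uniformly distributed. -/
noncomputable def refined (τ : List (Fin d) → Equiv.Perm (Fin d)) (n : ℕ) : Measure (ℝ × ℝ) :=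
  ∑ w : Fin n → Fin d,
    ((d : ℝ≥0∞) ^ n)⁻¹ • ProbabilityTheory.cond volume (square τ (List.ofFn w))

/-- `μ` is the weak limit of the measures `ν n`. -/
def WeakLimit (ν : ℕ → Measure (ℝ × ℝ)) (μ : Measure (ℝ × ℝ)) : Prop :=
  ∀ f : ℝ × ℝ → ℝ, Continuous f → (∃ c, ∀ z, |f z| ≤ c) →
    Tendsto (fun n => ∫ z, f z ∂(ν n)) atTop (𝓝 (∫ z, f z ∂μ))

/-- The permutations used in the refinement steps, indexed by the addresses of the kept squares, are
independent and have law `F`. -/
structure IsRefinementModel {Ω : Type} [MeasurableSpace Ω] (P : Measure Ω)
    (F : PMF (Equiv.Perm (Fin d))) (τ : List (Fin d) → Ω → Equiv.Perm (Fin d)) : Prop where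
  meas : ∀ w π, MeasurableSet {ω | τ w ω = π}
  law : ∀ w π, P {ω | τ w ω = π} = F π
  indep : iIndepFun (m := fun _ => ⊤) τ P

end Pool.Agent.H143FP
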