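import Mathlib

/-!
# Fractal permutons: entropy and counting lemmas
-/

open Finset

namespace Pool.Agent.H143FP

/-- Entropy lower bound from a family of moves. -/
theorem entropy_moves {Ω G T : Type*} [Fintype Ω] [DecidableEq Ω] [Fintype G] [DecidableEq G]
    [Fintype T] [DecidableEq T] [Nonempty Ω]
    (f : Ω → T) (A : Ω → Finset G) (act : G → Ω → Ω)
    (hne : ∀ ω, (A ω).Nonempty)
    (hinv : ∀ ω γ, γ ∈ A ω → A (act γ ω) = A ω)
    (hact : ∀ γ, Function.Injective (act γ))
    (hinj : ∀ ω, Set.InjOn (fun γ => f (act γ ω)) (A ω : Set G)) :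
    (Fintype.card Ω : ℝ)⁻¹ * ∑ ω, Real.log (A ω).card ≤
      ∑ τ : T, Real.negMulLog
        ((Fintype.card Ω : ℝ)⁻¹ * ((univ.filter fun ω => f ω = τ).card : ℝ)) := by
  classical
  have hcard : (0 : ℝ) < Fintype.card Ω := by exact_mod_cast Fintype.card_pos
  have hApos : ∀ ω, (0 : ℝ) < (A ω).card := fun ω => by exact_mod_cast (hne ω).card_pos
  -- the conditional laws
  set u : Ω → T → ℝ := fun ω τ =>
    ∑ γ ∈ A ω, if f (act γ ω) = τ then ((A ω).card : ℝ)⁻¹ else 0 with hu
  -- the law is the average of the conditional laws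
  have hlaw : ∀ τ, ((univ.filter fun ω => f ω = τ).card : ℝ) = ∑ ω, u ω τ := by
    intro τ
    have h1 : ∑ ω, u ω τ = ∑ γ : G, ∑ ω ∈ univ.filter (fun ω => γ ∈ A ω),
        if f (act γ ω) = τ then ((A (act γ ω)).card : ℝ)⁻¹ else 0 := by
      simp only [hu]
      rw [Finset.sum_comm' (s' := fun γ => univ.filter (fun ω => γ ∈ A ω)) (t' := univ)]
      · apply Finset.sum_congr rfl
        intro γ _
        apply Finset.sum_congr rfl
        intro ω hω
        rw [hinv ω γ (Finset.mem_filter.1 hω).2]
      · intro ω γ
        simp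
    have h2 : ∀ γ : G, (∑ ω ∈ univ.filter (fun ω => γ ∈ A ω),
        if f (act γ ω) = τ then ((A (act γ ω)).card : ℝ)⁻¹ else 0) =
        ∑ ω ∈ univ.filter (fun ω => γ ∈ A ω), if f ω = τ then ((A ω).card : ℝ)⁻¹ else 0 := by
      intro γ
      have hmaps : ∀ ω ∈ univ.filter (fun ω => γ ∈ A ω),
          act γ ω ∈ univ.filter (fun ω => γ ∈ A ω) := by
        intro ω hω
        have := (Finset.mem_filter.1 hω).2
        simp only [Finset.mem_filter, Finset.mem_univ, true_and]
        rw [hinv ω γ this]
        exact this
      refine Finset.sum_nbij (act γ) hmaps (fun x _ y _ h => hact γ h) ?_ (fun ω _ => rfl)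
      exact Finset.surjOn_of_injOn_of_card_le _ hmaps (fun x _ y _ h => hact γ h) le_rfl
    rw [h1, Finset.sum_congr rfl (fun γ _ => h2 γ)]
    rw [Finset.sum_comm' (s' := fun ω => A ω) (t' := univ) (by intro γ ω; simp)]
    rw [Finset.card_filter]
    push_cast
    apply Finset.sum_congr rfl
    intro ω _
    by_cases h : f ω = τ
    · simp only [h, if_true, Finset.sum_const, nsmul_eq_mul]
      rw [mul_inv_cancel₀ (hApos ω).ne']
    · simp [h]
  -- entropy of the conditional laws
  have huval : ∀ ω τ, u ω τ = if ∃ γ ∈ A ω, f (act γ ω) = τ then ((A ω).card : ℝ)⁻¹ else 0 := by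
    intro ω τ
    simp only [hu]
    by_cases h : ∃ γ ∈ A ω, f (act γ ω) = τ
    · rw [if_pos h]
      obtain ⟨γ, hγ, hγτ⟩ := h
      rw [Finset.sum_eq_single_of_mem γ hγ]
      · rw [if_pos hγτ]
      · intro γ' hγ' hne'
        rw [if_neg]
        intro h'
        exact hne' (hinj ω hγ' hγ (h'.trans hγτ.symm))
    · rw [if_neg h]
      apply Finset.sum_eq_zero
      intro γ hγ
      rw [if_neg (fun h' => h ⟨γ, hγ, h'⟩)]
  have hent : ∀ ω, ∑ τ, Real.negMulLog (u ω τ) = Real.log (A ω).card := by
    intro ω
    have h1 : ∀ τ, Real.negMulLog (u ω τ) =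
        if ∃ γ ∈ A ω, f (act γ ω) = τ then Real.negMulLog (((A ω).card : ℝ)⁻¹) else 0 := by
      intro τ
      rw [huval]
      split_ifs
      · rfl
      · simp
    rw [Finset.sum_congr rfl (fun τ _ => h1 τ), ← Finset.sum_filter, Finset.sum_const,
      nsmul_eq_mul]
    have h2 : (univ.filter fun τ => ∃ γ ∈ A ω, f (act γ ω) = τ) =
        (A ω).image (fun γ => f (act γ ω)) := by
      ext τ; simp
    rw [h2, Finset.card_image_of_injOn (hinj ω)]
    unfold Real.negMulLog
    rw [Real.log_inv]
    field_simp [(hApos ω).ne']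
  have hunn : ∀ ω τ, 0 ≤ u ω τ := by
    intro ω τ
    rw [huval]
    split_ifs
    · exact inv_nonneg.2 (hApos ω).le
    · exact le_rfl
  -- concavity
  have hconc : ∀ τ, ∑ ω, (Fintype.card Ω : ℝ)⁻¹ * Real.negMulLog (u ω τ) ≤
      Real.negMulLog ((Fintype.card Ω : ℝ)⁻¹ * ((univ.filter fun ω => f ω = τ).card : ℝ)) := by
    intro τ
    have := Real.concaveOn_negMulLog.le_map_sum (t := (univ : Finset Ω))
      (w := fun _ => (Fintype.card Ω : ℝ)⁻¹) (p := fun ω => u ω τ)
      (fun _ _ => (inv_pos.2 hcard).le) (by simp [Finset.sum_const])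
      (fun ω _ => hunn ω τ)
    simp only [smul_eq_mul] at this
    rw [hlaw, Finset.mul_sum]
    exact this
  calc (Fintype.card Ω : ℝ)⁻¹ * ∑ ω, Real.log (A ω).card
      = ∑ ω, (Fintype.card Ω : ℝ)⁻¹ * ∑ τ, Real.negMulLog (u ω τ) := by
        rw [Finset.mul_sum]
        exact Finset.sum_congr rfl (fun ω _ => by rw [hent])
    _ = ∑ τ, ∑ ω, (Fintype.card Ω : ℝ)⁻¹ * Real.negMulLog (u ω τ) := by
        rw [Finset.sum_comm]
        exact Finset.sum_congr rfl (fun ω _ => Finset.mul_sum _ _ _)
    _ ≤ _ := Finset.sum_le_sum (fun τ _ => hconc τ)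

/-- Number of functions with two equal values. -/
lemma card_eq_pair {n : ℕ} {α : Type*} [Fintype α] [DecidableEq α] {s t : Fin n} (hst : s ≠ t) :
    ((univ.filter fun a : Fin n → α => a s = a t).card : ℝ) * Fintype.card α =
      (Fintype.card α : ℝ) ^ n := by
  classical
  have h : (univ.filter fun a : Fin n → α => a s = a t).card * Fintype.card α =
      Fintype.card α ^ n := by
    rw [← Finset.card_univ (α := α), ← Finset.card_product]
    have : Fintype.card α ^ n = (univ : Finset (Fin n → α)).card := by
      rw [Finset.card_univ, Fintype.card_fun, Fintype.card_fin]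
    rw [Finset.card_univ (α := α), this]
    apply Finset.card_nbij' (fun x => Function.update x.1 s x.2)
      (fun a => (Function.update a s (a t), a s))
    · intro x _; simp
    · intro a _
      simp [Function.update_of_ne hst.symm]
    · rintro ⟨a, x⟩ hx
      simp only [Finset.coe_product, Set.mem_prod, Finset.mem_coe, Finset.mem_filter,
        Finset.mem_univ, true_and, and_true] at hx
      simp only [Function.update_of_ne hst.symm, Function.update_self, Function.update_idem,
        Prod.mk.injEq, and_true]
      rw [← hx, Function.update_eq_self]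
    · intro a _
      simp
  exact_mod_cast h

/-- Sum of squared cell counts, averaged over all assignments. -/
lemma sum_sq_counts {n : ℕ} {C : Type*} [Fintype C] [DecidableEq C] [Nonempty C] :
    ∑ w : Fin n → C, ∑ i : C, ((univ.filter fun s => w s = i).card : ℝ) ^ 2 =
      (Fintype.card C : ℝ) ^ n * (n + n * (n - 1) / Fintype.card C) := by
  classical
  have hC : (0 : ℝ) < Fintype.card C := by exact_mod_cast Fintype.card_pos
  have h1 : ∀ w : Fin n → C, ∑ i : C, ((univ.filter fun s => w s = i).card : ℝ) ^ 2 =
      ∑ s : Fin n, ∑ t : Fin n, if w s = w t then (1 : ℝ) else 0 := by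
    intro w
    have : ∀ i : C, ((univ.filter fun s => w s = i).card : ℝ) ^ 2 =
        ∑ s : Fin n, ∑ t : Fin n, (if w s = i then (1 : ℝ) else 0) * (if w t = i then 1 else 0) := by
      intro i
      rw [Finset.card_filter, sq]
      push_cast
      rw [Finset.sum_mul_sum]
    simp only [this]
    rw [Finset.sum_comm]
    apply Finset.sum_congr rfl
    intro s _
    rw [Finset.sum_comm]
    apply Finset.sum_congr rfl
    intro t _
    simp only [ite_mul, one_mul, zero_mul]
    rw [Finset.sum_ite_eq]
    simp [eq_comm]
  simp only [h1]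
  rw [Finset.sum_comm]
  have h2 : ∀ s : Fin n, ∑ w : Fin n → C, ∑ t : Fin n, (if w s = w t then (1 : ℝ) else 0) =
      (Fintype.card C : ℝ) ^ n * (1 + (n - 1) / Fintype.card C) := by
    intro s
    rw [Finset.sum_comm]
    have h3 : ∀ t : Fin n, ∑ w : Fin n → C, (if w s = w t then (1 : ℝ) else 0) =
        if t = s then (Fintype.card C : ℝ) ^ n else (Fintype.card C : ℝ) ^ n / Fintype.card C := by
      intro t
      by_cases hts : t = s
      · subst hts
        simp
      · rw [if_neg hts]
        have := card_eq_pair (α := C) (fun h => hts h.symm : s ≠ t)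
        rw [← this, Finset.card_filter]
        push_cast
        field_simp
    simp only [h3]
    rw [Finset.sum_ite, Finset.sum_const, Finset.sum_const, Finset.filter_eq' univ s]
    have h4 : (univ.filter fun t : Fin n => ¬ t = s).card = n - 1 := by
      rw [Finset.filter_not, Finset.filter_eq' univ s]
      simp [Finset.card_sdiff]
    have hn : 1 ≤ n := Nat.one_le_of_lt s.pos
    rw [h4]
    simp only [Finset.mem_univ, if_true, Finset.card_singleton, one_smul, nsmul_eq_mul]
    push_cast [Nat.cast_sub hn]
    field_simp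
  rw [Finset.sum_congr rfl (fun s _ => h2 s), Finset.sum_const, Finset.card_univ, Fintype.card_fin,
    nsmul_eq_mul]
  ring

lemma sum_counts {n : ℕ} {C : Type*} [Fintype C] [DecidableEq C] (w : Fin n → C) :
    ∑ i : C, ((univ.filter fun s => w s = i).card : ℝ) = n := by
  classical
  have := Finset.card_eq_sum_card_fiberwise (f := w) (s := univ) (t := univ) (fun _ _ => by simp)
  rw [Finset.card_univ, Fintype.card_fin] at this
  exact_mod_cast this.symm

lemma log_factorial_ge (m b : ℕ) :
    Real.log (m.factorial) + ((b : ℝ) - m) * Real.log (m + 1) ≤ Real.log (b.factorial) := by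
  rcases le_total m b with h | h
  · induction b, h using Nat.le_induction with
    | base => simp
    | succ b hb ih =>
      rw [Nat.factorial_succ]
      push_cast
      rw [Real.log_mul (by positivity) (by positivity)]
      have : Real.log ((m : ℝ) + 1) ≤ Real.log ((b : ℝ) + 1) := by
        apply Real.log_le_log (by positivity)
        have : (m : ℝ) ≤ b := by exact_mod_cast hb
        linarith
      linarith
  · have key : ∀ k, b ≤ k → k ≤ m →
        Real.log (k.factorial) ≤ Real.log (b.factorial) + ((k : ℝ) - b) * Real.log (m + 1) := by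
      intro k hk
      induction k, hk using Nat.le_induction with
      | base => intro _; simp
      | succ k hk ih =>
        intro hkm
        have ih' := ih (by omega)
        rw [Nat.factorial_succ]
        push_cast
        rw [Real.log_mul (by positivity) (by positivity)]
        have : Real.log ((k : ℝ) + 1) ≤ Real.log ((m : ℝ) + 1) := by
          apply Real.log_le_log (by positivity)
          have : (k : ℝ) + 1 ≤ m := by exact_mod_cast hkm
          linarith
        linarith
    have := key m h le_rfl
    linarith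

lemma log_factorial_le_sq (b : ℕ) : Real.log (b.factorial) ≤ (b : ℝ) * (b - 1) / 2 := by
  induction b with
  | zero => simp
  | succ b ih =>
    rw [Nat.factorial_succ]
    push_cast
    rw [Real.log_mul (by positivity) (by positivity)]
    have : Real.log ((b : ℝ) + 1) ≤ b := by
      have := Real.log_le_sub_one_of_pos (show (0 : ℝ) < (b : ℝ) + 1 by positivity)
      linarith
    linarith

lemma log_factorial_ge' (m : ℕ) (hm : 0 < m) :
    (m : ℝ) * Real.log m - m ≤ Real.log (m.factorial) := by
  have h := Real.pow_div_factorial_le_exp (m : ℝ) (by positivity) m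
  have hm' : (0 : ℝ) < m := by exact_mod_cast hm
  have h2 : Real.log ((m : ℝ) ^ m / m.factorial) ≤ m := by
    rw [Real.log_le_iff_le_exp (by positivity)]
    exact h
  rw [Real.log_div (by positivity) (by positivity), Real.log_pow] at h2
  linarith

/-- the quadratic lower bound for the truncated log-factorial -/
lemma quad_lower (m b : ℕ) :
    Real.log (m.factorial) + ((b : ℝ) - m) * Real.log (m + 1) - ((b : ℝ) - m) ^ 2 ≤
      if b ≤ 3 * m then Real.log (b.factorial) else 0 := by
  split_ifs with h
  · have := log_factorial_ge m b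
    nlinarith [sq_nonneg ((b : ℝ) - m)]
  · push Not at h
    have hb : (3 * m : ℝ) < b := by exact_mod_cast h
    have h1 := log_factorial_le_sq m
    have h2 : Real.log ((m : ℝ) + 1) ≤ m := by
      have := Real.log_le_sub_one_of_pos (show (0 : ℝ) < (m : ℝ) + 1 by positivity)
      linarith
    have hm : (0 : ℝ) ≤ m := by positivity
    nlinarith

end Pool.Agent.H143FP
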