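import Pool.Agent.H143FP.Comb
import Pool.Agent.H143FP.Ent

/-!
# Fractal permutons: the finite lower bound
-/

open Finset

set_option linter.unusedSectionVars false

namespace Pool.Agent.H143FP

variable {n q : ℕ} {C : Type*} [Fintype C] [DecidableEq C]

open Classical in
lemma good_count (L : ℕ) (hq : 4 * L ^ 2 ≤ q) (hq0 : 0 < q) (w : Fin n → C) (i : C)
    (hN : (univ.filter fun s => w s = i).card ≤ L) :
    (q : ℝ) ^ n * (q : ℝ) ^ n / 2 ≤
      ((univ.filter fun ab : (Fin n → Fin q) × (Fin n → Fin q) =>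
        Good L w ab.1 ab.2 i).card : ℝ) := by
  set S : Finset (Fin n) := univ.filter fun s => w s = i with hS
  have hqR : (0 : ℝ) < q := by exact_mod_cast hq0
  have hbad : (univ.filter fun ab : (Fin n → Fin q) × (Fin n → Fin q) =>
      ¬ Good L w ab.1 ab.2 i) ⊆ S.offDiag.biUnion (fun st =>
        ((univ.filter fun a : Fin n → Fin q => a st.1 = a st.2) ×ˢ univ) ∪
        (univ ×ˢ (univ.filter fun b : Fin n → Fin q => b st.1 = b st.2))) := by
    intro ab hab
    have hab' : ¬ Good L w ab.1 ab.2 i := (Finset.mem_filter.1 hab).2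
    unfold Good at hab'
    rw [not_and_or, not_and_or] at hab'
    simp only [Finset.mem_biUnion, Finset.mem_offDiag, Finset.mem_union, Finset.mem_product,
      Finset.mem_filter, Finset.mem_univ, true_and, and_true, Prod.exists]
    rcases hab' with h | h | h
    · exact absurd hN h
    · push Not at h
      obtain ⟨s, t, hs, ht, he, hne⟩ := h
      exact ⟨s, t, ⟨by simp [hS, hs], by simp [hS, ht], hne⟩, Or.inl he⟩
    · push Not at h
      obtain ⟨s, t, hs, ht, he, hne⟩ := h
      exact ⟨s, t, ⟨by simp [hS, hs], by simp [hS, ht], hne⟩, Or.inr he⟩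
  have hcard1 : ((univ.filter fun ab : (Fin n → Fin q) × (Fin n → Fin q) =>
      ¬ Good L w ab.1 ab.2 i).card : ℝ) ≤ S.offDiag.card * (2 * ((q : ℝ) ^ n * (q : ℝ) ^ n / q)) := by
    have h1 := (Finset.card_le_card hbad).trans Finset.card_biUnion_le
    have h2 : ((∑ st ∈ S.offDiag, (((univ.filter fun a : Fin n → Fin q => a st.1 = a st.2) ×ˢ
        (univ : Finset (Fin n → Fin q))) ∪ (univ ×ˢ (univ.filter fun b : Fin n → Fin q =>
          b st.1 = b st.2))).card : ℕ) : ℝ) ≤
        ∑ st ∈ S.offDiag, (2 * ((q : ℝ) ^ n * (q : ℝ) ^ n / q)) := by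
      push_cast
      apply Finset.sum_le_sum
      intro st hst
      have hne : st.1 ≠ st.2 := (Finset.mem_offDiag.1 hst).2.2
      have h3 := card_eq_pair (α := Fin q) hne
      rw [Fintype.card_fin] at h3
      have h4 : ((univ.filter fun a : Fin n → Fin q => a st.1 = a st.2).card : ℝ) =
          (q : ℝ) ^ n / q := by
        rw [← h3]; field_simp
      calc _ ≤ (((((univ.filter fun a : Fin n → Fin q => a st.1 = a st.2) ×ˢ
            (univ : Finset (Fin n → Fin q))).card + (univ ×ˢ (univ.filter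
              fun b : Fin n → Fin q => b st.1 = b st.2)).card : ℕ)) : ℝ) := by
              exact_mod_cast Finset.card_union_le _ _
        _ = _ := by
              rw [Finset.card_product, Finset.card_product, Finset.card_univ, Fintype.card_fun,
                Fintype.card_fin, Fintype.card_fin]
              push_cast
              rw [h4]
              ring
    rw [Finset.sum_const, nsmul_eq_mul] at h2
    exact (by exact_mod_cast h1 : _ ≤ _).trans h2
  have hoff : (S.offDiag.card : ℝ) ≤ (L : ℝ) ^ 2 := by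
    rw [Finset.offDiag_card]
    have : S.card * S.card - S.card ≤ L ^ 2 := by
      calc _ ≤ S.card * S.card := Nat.sub_le _ _
        _ ≤ L * L := Nat.mul_le_mul hN hN
        _ = L ^ 2 := (sq L).symm
    exact_mod_cast this
  have htot : ((univ.filter fun ab : (Fin n → Fin q) × (Fin n → Fin q) =>
        Good L w ab.1 ab.2 i).card : ℝ) + ((univ.filter fun ab : (Fin n → Fin q) × (Fin n → Fin q) =>
      ¬ Good L w ab.1 ab.2 i).card : ℝ) = (q : ℝ) ^ n * (q : ℝ) ^ n := by
    have := Finset.card_filter_add_card_filter_not (s := (univ : Finset ((Fin n → Fin q) × (Fin n → Fin q))))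
      (fun ab => Good L w ab.1 ab.2 i)
    rw [Finset.card_univ, Fintype.card_prod, Fintype.card_fun, Fintype.card_fin,
      Fintype.card_fin] at this
    exact_mod_cast this
  have hQ : (0 : ℝ) < (q : ℝ) ^ n * (q : ℝ) ^ n := by positivity
  have hqL : (4 : ℝ) * (L : ℝ) ^ 2 ≤ q := by exact_mod_cast hq
  have hb : (S.offDiag.card : ℝ) * (2 * ((q : ℝ) ^ n * (q : ℝ) ^ n / q)) ≤
      (q : ℝ) ^ n * (q : ℝ) ^ n / 2 := by
    calc (S.offDiag.card : ℝ) * (2 * ((q : ℝ) ^ n * (q : ℝ) ^ n / q))
        ≤ (L : ℝ) ^ 2 * (2 * ((q : ℝ) ^ n * (q : ℝ) ^ n / q)) := by gcongr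
      _ = ((4 * (L : ℝ) ^ 2) / q) * ((q : ℝ) ^ n * (q : ℝ) ^ n / 2) := by
          field_simp; ring
      _ ≤ 1 * ((q : ℝ) ^ n * (q : ℝ) ^ n / 2) := by
          gcongr
          rw [div_le_one hqR]; exact hqL
      _ = _ := one_mul _
  linarith

theorem avg_lower [Nonempty C] (m : ℕ) (hn : n = m * Fintype.card C)
    (hq : 4 * (3 * m) ^ 2 ≤ q) (hq0 : 0 < q) :
    ((Fintype.card C : ℝ) * Real.log (m.factorial) - n) / 2 ≤
      (Fintype.card ((Fin n → C) × (Fin n → Fin q) × (Fin n → Fin q)) : ℝ)⁻¹ *
        ∑ ω : (Fin n → C) × (Fin n → Fin q) × (Fin n → Fin q),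
          Real.log (moves (3 * m) ω.1 ω.2.1 ω.2.2).card := by
  classical
  have hK : (0 : ℝ) < Fintype.card C := by exact_mod_cast Fintype.card_pos
  have hqR : (0 : ℝ) < q := by exact_mod_cast hq0
  have hQ : (0 : ℝ) < (q : ℝ) ^ n * (q : ℝ) ^ n := by positivity
  have hlog : ∀ ω : (Fin n → C) × (Fin n → Fin q) × (Fin n → Fin q),
      Real.log (moves (3 * m) ω.1 ω.2.1 ω.2.2).card =
        ∑ i : C, if Good (3 * m) ω.1 ω.2.1 ω.2.2 i then
          Real.log ((univ.filter fun s => ω.1 s = i).card.factorial) else 0 := by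
    intro ω
    rw [moves_card]
    push_cast
    rw [Real.log_prod]
    · apply Finset.sum_congr rfl
      intro i _
      split_ifs <;> simp
    · intro i _
      split_ifs
      · exact_mod_cast Nat.factorial_ne_zero _
      · norm_num
  have hsum : ∑ ω : (Fin n → C) × (Fin n → Fin q) × (Fin n → Fin q),
      Real.log (moves (3 * m) ω.1 ω.2.1 ω.2.2).card =
      ∑ w : Fin n → C, ∑ i : C, Real.log ((univ.filter fun s => w s = i).card.factorial) *
        ((univ.filter fun ab : (Fin n → Fin q) × (Fin n → Fin q) =>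
          Good (3 * m) w ab.1 ab.2 i).card : ℝ) := by
    rw [Fintype.sum_prod_type]
    apply Finset.sum_congr rfl
    intro w _
    rw [Finset.sum_congr rfl (fun ab _ => hlog (w, ab)), Finset.sum_comm]
    apply Finset.sum_congr rfl
    intro i _
    dsimp only
    rw [← Finset.sum_filter]
    calc _ = ∑ ab ∈ univ.filter (fun ab : (Fin n → Fin q) × (Fin n → Fin q) =>
          Good (3 * m) w ab.1 ab.2 i),
          Real.log ((univ.filter fun s => w s = i).card.factorial) := by
            apply Finset.sum_congr (by congr)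
            intro ab _
            congr
      _ = _ := by rw [Finset.sum_const, nsmul_eq_mul, mul_comm]
  have hterm : ∀ (w : Fin n → C) (i : C),
      (Real.log (m.factorial) + (((univ.filter fun s => w s = i).card : ℝ) - m) * Real.log (m + 1)
        - (((univ.filter fun s => w s = i).card : ℝ) - m) ^ 2) * ((q : ℝ) ^ n * (q : ℝ) ^ n / 2) ≤
      Real.log ((univ.filter fun s => w s = i).card.factorial) *
        ((univ.filter fun ab : (Fin n → Fin q) × (Fin n → Fin q) =>
          Good (3 * m) w ab.1 ab.2 i).card : ℝ) := by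
    intro w i
    have h1 := quad_lower m (univ.filter fun s => w s = i).card
    have h0 : (0 : ℝ) ≤ Real.log ((univ.filter fun s => w s = i).card.factorial) :=
      Real.log_nonneg (by exact_mod_cast Nat.factorial_pos _)
    by_cases hN : (univ.filter fun s => w s = i).card ≤ 3 * m
    · rw [if_pos hN] at h1
      have h2 := good_count (q := q) (3 * m) hq hq0 w i hN
      calc _ ≤ Real.log ((univ.filter fun s => w s = i).card.factorial) *
            ((q : ℝ) ^ n * (q : ℝ) ^ n / 2) := by
              apply mul_le_mul_of_nonneg_right h1 (by positivity)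
        _ ≤ _ := mul_le_mul_of_nonneg_left h2 h0
    · rw [if_neg hN] at h1
      have h3 : (Real.log (m.factorial) + (((univ.filter fun s => w s = i).card : ℝ) - m) *
        Real.log (m + 1) - (((univ.filter fun s => w s = i).card : ℝ) - m) ^ 2) *
          ((q : ℝ) ^ n * (q : ℝ) ^ n / 2) ≤ 0 :=
        mul_nonpos_of_nonpos_of_nonneg h1 (by positivity)
      have h4 : (0 : ℝ) ≤ Real.log ((univ.filter fun s => w s = i).card.factorial) *
        ((univ.filter fun ab : (Fin n → Fin q) × (Fin n → Fin q) =>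
          Good (3 * m) w ab.1 ab.2 i).card : ℝ) := mul_nonneg h0 (by positivity)
      linarith
  have hinner : ∀ w : Fin n → C, ∑ i : C,
      (Real.log (m.factorial) + (((univ.filter fun s => w s = i).card : ℝ) - m) * Real.log (m + 1)
        - (((univ.filter fun s => w s = i).card : ℝ) - m) ^ 2) =
      (Fintype.card C : ℝ) * Real.log (m.factorial) + ((n : ℝ) - m * Fintype.card C) *
        Real.log (m + 1) - (∑ i : C, ((univ.filter fun s => w s = i).card : ℝ) ^ 2
          - 2 * m * n + m ^ 2 * Fintype.card C) := by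
    intro w
    have e1 : ∀ i : C, (Real.log (m.factorial) + (((univ.filter fun s => w s = i).card : ℝ) - m) *
        Real.log (m + 1) - (((univ.filter fun s => w s = i).card : ℝ) - m) ^ 2) =
        (Real.log (m.factorial) - m * Real.log (m + 1) - m ^ 2) +
        ((univ.filter fun s => w s = i).card : ℝ) * (Real.log (m + 1) + 2 * m) -
        ((univ.filter fun s => w s = i).card : ℝ) ^ 2 := by
      intro i; ring
    simp only [e1]
    rw [Finset.sum_sub_distrib, Finset.sum_add_distrib, Finset.sum_const, Finset.card_univ,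
      ← Finset.sum_mul, sum_counts, nsmul_eq_mul]
    ring
  have htotal : ∑ w : Fin n → C, ∑ i : C,
      (Real.log (m.factorial) + (((univ.filter fun s => w s = i).card : ℝ) - m) * Real.log (m + 1)
        - (((univ.filter fun s => w s = i).card : ℝ) - m) ^ 2) =
      (Fintype.card C : ℝ) ^ n * ((Fintype.card C : ℝ) * Real.log (m.factorial) - (n - m)) := by
    simp only [hinner]
    have hnR : (n : ℝ) = m * Fintype.card C := by exact_mod_cast hn
    have h5 : ∀ x : ℝ, ∑ _w : Fin n → C, x = (Fintype.card C : ℝ) ^ n * x := by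
      intro x
      rw [Finset.sum_const, Finset.card_univ, Fintype.card_fun, Fintype.card_fin, nsmul_eq_mul]
      push_cast; ring
    rw [Finset.sum_sub_distrib, h5, Finset.sum_add_distrib, Finset.sum_sub_distrib, h5, h5,
      sum_sq_counts]
    rw [hnR]
    field_simp
    ring
  have hcardΩ : (Fintype.card ((Fin n → C) × (Fin n → Fin q) × (Fin n → Fin q)) : ℝ) =
      (Fintype.card C : ℝ) ^ n * ((q : ℝ) ^ n * (q : ℝ) ^ n) := by
    rw [Fintype.card_prod, Fintype.card_prod, Fintype.card_fun, Fintype.card_fun, Fintype.card_fin,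
      Fintype.card_fin]
    push_cast; ring
  rw [hsum, hcardΩ]
  have hfinal : ((Fintype.card C : ℝ) ^ n * ((Fintype.card C : ℝ) * Real.log (m.factorial) -
      (n - m))) * ((q : ℝ) ^ n * (q : ℝ) ^ n / 2) ≤
      ∑ w : Fin n → C, ∑ i : C, Real.log ((univ.filter fun s => w s = i).card.factorial) *
        ((univ.filter fun ab : (Fin n → Fin q) × (Fin n → Fin q) =>
          Good (3 * m) w ab.1 ab.2 i).card : ℝ) := by
    rw [← htotal, Finset.sum_mul]
    apply Finset.sum_le_sum
    intro w _
    rw [Finset.sum_mul]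
    exact Finset.sum_le_sum (fun i _ => hterm w i)
  have hKn : (0 : ℝ) < (Fintype.card C : ℝ) ^ n := by positivity
  rw [inv_mul_eq_div, le_div_iff₀ (by positivity)]
  refine le_trans ?_ hfinal
  have hm : (0 : ℝ) ≤ m := by positivity
  have : ((Fintype.card C : ℝ) * Real.log (m.factorial) - n) / 2 *
      ((Fintype.card C : ℝ) ^ n * ((q : ℝ) ^ n * (q : ℝ) ^ n)) =
      ((Fintype.card C : ℝ) ^ n * ((Fintype.card C : ℝ) * Real.log (m.factorial) - n)) *
        ((q : ℝ) ^ n * (q : ℝ) ^ n / 2) := by ring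
  rw [this]
  gcongr
  linarith

/-- The finite lower bound: entropy of the pattern for fixed fine positions. -/
theorem finite_lower [Nonempty C] (m : ℕ) (hn : n = m * Fintype.card C)
    (hq : 4 * (3 * m) ^ 2 ≤ q) (hq0 : 0 < q) (cn rn : C → ℕ)
    (hcn : Function.Injective cn) (hrn : Function.Injective rn) (u v : Fin n → ℝ)
    (hu : ∀ s, 0 ≤ u s ∧ u s < 1) (hv : ∀ s, 0 ≤ v s ∧ v s < 1) :
    ((Fintype.card C : ℝ) * Real.log (m.factorial) - n) / 2 ≤
      ∑ π : Equiv.Perm (Fin n), Real.negMulLog
        ((Fintype.card ((Fin n → C) × (Fin n → Fin q) × (Fin n → Fin q)) : ℝ)⁻¹ *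
          ((univ.filter fun ω : (Fin n → C) × (Fin n → Fin q) × (Fin n → Fin q) =>
            pattern (fun s => (xval cn u ω.1 ω.2.1 ω.2.2 s, xval rn v ω.1 ω.2.2 ω.2.1 s)) =
              π).card : ℝ)) := by
  classical
  have : Nonempty (Fin q) := ⟨⟨0, hq0⟩⟩
  refine (avg_lower m hn hq hq0).trans ?_
  apply entropy_moves
    (f := fun ω : (Fin n → C) × (Fin n → Fin q) × (Fin n → Fin q) =>
      pattern (fun s => (xval cn u ω.1 ω.2.1 ω.2.2 s, xval rn v ω.1 ω.2.2 ω.2.1 s)))
    (A := fun ω => moves (3 * m) ω.1 ω.2.1 ω.2.2)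
    (act := fun γ ω => (ω.1, ω.2.1, ω.2.2 ∘ γ))
  · intro ω
    refine ⟨Equiv.refl _, ?_⟩
    simp [moves]
  · intro ω γ hγ
    exact moves_comp hγ
  · rintro γ ⟨w, a, b⟩ ⟨w', a', b'⟩ h
    simp only [Prod.mk.injEq] at h
    obtain ⟨h1, h2, h3⟩ := h
    have h4 : b = b' := by
      funext s
      have := congrFun h3 (γ.symm s)
      simpa using this
    rw [h1, h2, h4]
  · intro ω γ hγ γ' hγ' h
    exact moves_injOn cn rn u v hcn hrn hu hv ω.1 ω.2.1 ω.2.2 hγ hγ' h

end Pool.Agent.H143FP
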