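import Pool.Agent.H143FP.Words

/-!
# Fractal permutons: the lower bound for the digit swap
-/

open MeasureTheory ProbabilityTheory Filter Topology
open scoped ENNReal

namespace Pool.Agent.H143FP

/-- The digit swap `a q + b ↦ b q + a` of `{0, …, q² - 1}`. -/
def swapPerm (q : ℕ) : Equiv.Perm (Fin (q * q)) :=
  finProdFinEquiv.symm.trans ((Equiv.prodComm _ _).trans finProdFinEquiv)

lemma swapPerm_apply (q : ℕ) (a b : Fin q) :
    swapPerm q (finProdFinEquiv (a, b)) = finProdFinEquiv (b, a) := by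
  simp [swapPerm]

/-- The lower bound along `n = m q ^ (2k)`. -/
theorem entropy_lower {q : ℕ} (m : ℕ) (hq : 4 * (3 * m) ^ 2 ≤ q) (hq0 : 0 < q)
    {μ : Measure (ℝ × ℝ)} [IsProbabilityMeasure μ] (h : SelfSim (swapPerm q) μ)
    (hμ : ∀ᵐ z ∂μ, (0 ≤ z.1 ∧ z.1 < 1) ∧ (0 ≤ z.2 ∧ z.2 < 1)) (k : ℕ) :
    ((((q * q : ℕ) : ℝ)) ^ k * Real.log (m.factorial) - ((m * (q * q) ^ k : ℕ) : ℝ)) / 2 ≤
      samplingEntropy μ (m * (q * q) ^ k) := by
  classical
  have : Nonempty (Fin q) := ⟨⟨0, hq0⟩⟩
  have hqq : 0 < q * q := Nat.mul_pos hq0 hq0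
  have : Nonempty (Fin (q * q)) := ⟨⟨0, hqq⟩⟩
  set σ := swapPerm q with hσ
  set n := m * (q * q) ^ k with hn
  have hcard : n = m * Fintype.card (Fin k → Fin (q * q)) := by simp [hn]
  -- the decomposition
  have hself : μ = ∑ g : (Fin k → Fin (q * q)) × (Fin q × Fin q),
      (Fintype.card ((Fin k → Fin (q * q)) × (Fin q × Fin q)) : ℝ≥0∞)⁻¹ •
        μ.map (AA σ (finProdFinEquiv g.2 :: List.ofFn g.1)) := by
    have h1 := selfSim_step h (fun w : Fin k → Fin (q * q) => List.ofFn w) _ (selfSim_iterate h k)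
    conv_lhs => rw [h1]
    apply Fintype.sum_equiv ((Equiv.refl _).prodCongr finProdFinEquiv.symm)
    rintro ⟨w, i⟩
    simp only [Equiv.prodCongr_apply, Prod.map_apply, Equiv.refl_apply, Equiv.apply_symm_apply]
    congr 1
    rw [Fintype.card_prod, Fintype.card_prod, Fintype.card_fun, Fintype.card_fin,
      Fintype.card_fin, Fintype.card_fin]
    push_cast
    have hne : ((q : ℝ≥0∞) * q) ≠ 0 := by
      have : (q : ℝ≥0∞) ≠ 0 := by exact_mod_cast hq0.ne'
      exact mul_ne_zero this this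
    have htop : ((q : ℝ≥0∞) * q) ≠ ⊤ := ENNReal.mul_ne_top (ENNReal.natCast_ne_top q)
      (ENNReal.natCast_ne_top q)
    rw [ENNReal.mul_inv (Or.inr htop) (Or.inl (ENNReal.pow_ne_top htop))]
  have hlaw := fun π : Equiv.Perm (Fin n) => law_formula (n := n) μ
    (fun g : (Fin k → Fin (q * q)) × (Fin q × Fin q) =>
      AA σ (finProdFinEquiv g.2 :: List.ofFn g.1)) (fun g => measurable_AA σ _) hself π
  unfold samplingEntropy
  rw [Finset.sum_congr rfl (fun π _ => by rw [hlaw π])]
  -- change of index set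
  let e : (Fin n → (Fin k → Fin (q * q)) × (Fin q × Fin q)) ≃
      (Fin n → (Fin k → Fin (q * q))) × (Fin n → Fin q) × (Fin n → Fin q) :=
    { toFun := fun g => (fun s => (g s).1, fun s => (g s).2.1, fun s => (g s).2.2)
      invFun := fun ω s => (ω.1 s, (ω.2.1 s, ω.2.2 s))
      left_inv := fun g => rfl
      right_inv := fun ω => rfl }
  set F : ((Fin n → (Fin k → Fin (q * q))) × (Fin n → Fin q) × (Fin n → Fin q)) →
      (Fin n → ℝ × ℝ) → Fin n → ℝ × ℝ :=
    fun ω z s => AA σ (finProdFinEquiv (ω.2.1 s, ω.2.2 s) :: List.ofFn (ω.1 s)) (z s) with hF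
  have hchange : ∀ π : Equiv.Perm (Fin n),
      (Fintype.card (Fin n → (Fin k → Fin (q * q)) × (Fin q × Fin q)) : ℝ)⁻¹ *
        ∑ g : Fin n → (Fin k → Fin (q * q)) × (Fin q × Fin q),
        (Measure.pi fun _ : Fin n => μ).real
          {z | pattern (fun s => AA σ (finProdFinEquiv (g s).2 :: List.ofFn (g s).1) (z s)) = π} =
      (Fintype.card ((Fin n → (Fin k → Fin (q * q))) × (Fin n → Fin q) × (Fin n → Fin q)) : ℝ)⁻¹ *
        ∑ ω, (Measure.pi fun _ : Fin n => μ).real {z | pattern (F ω z) = π} := by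
    intro π
    rw [Fintype.card_congr e]
    congr 1
    exact Fintype.sum_equiv e _ _ (fun g => rfl)
  rw [Finset.sum_congr rfl (fun π _ => by rw [hchange π])]
  apply entropy_jensen (Measure.pi fun _ : Fin n => μ) F
  · intro ω s
    exact (measurable_AA σ _).comp (measurable_pi_apply s)
  have hae : ∀ᵐ z ∂(Measure.pi fun _ : Fin n => μ),
      ∀ s, (0 ≤ (z s).1 ∧ (z s).1 < 1) ∧ (0 ≤ (z s).2 ∧ (z s).2 < 1) := by
    rw [ae_all_iff]
    intro s
    have hmp := measurePreserving_eval (fun _ : Fin n => μ) s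
    exact hmp.quasiMeasurePreserving.ae hμ
  filter_upwards [hae] with z hz
  have hcn : Function.Injective (fun w : Fin k → Fin (q * q) => colnum (List.ofFn w)) := by
    intro w w' hw
    exact List.ofFn_injective (colnum_inj _ _ (by simp) hw)
  have hrn : Function.Injective
      (fun w : Fin k → Fin (q * q) => colnum ((List.ofFn w).map σ)) := by
    intro w w' hw
    have := colnum_inj _ _ (by simp) hw
    exact List.ofFn_injective (List.map_injective_iff.2 σ.injective this)
  have key := finite_lower (C := Fin k → Fin (q * q)) m hcard hq hq0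
    (fun w => colnum (List.ofFn w)) (fun w => colnum ((List.ofFn w).map σ)) hcn hrn
    (fun s => (z s).1) (fun s => (z s).2) (fun s => (hz s).1) (fun s => (hz s).2)
  have e1 : (Fintype.card (Fin k → Fin (q * q)) : ℝ) = ((q * q : ℕ) : ℝ) ^ k := by simp
  rw [e1] at key
  refine key.trans (le_of_eq ?_)
  apply Finset.sum_congr rfl
  intro π _
  congr 3
  have hpat : ∀ ω : (Fin n → (Fin k → Fin (q * q))) × (Fin n → Fin q) × (Fin n → Fin q),
      pattern (F ω z) = pattern (fun s => (xval (fun w => colnum (List.ofFn w))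
        (fun s => (z s).1) ω.1 ω.2.1 ω.2.2 s, xval (fun w => colnum ((List.ofFn w).map σ))
        (fun s => (z s).2) ω.1 ω.2.2 ω.2.1 s)) := by
    intro ω
    apply pattern_scale _ _ (((q * q : ℕ) : ℝ) ^ (k + 1)) (by positivity)
    · intro s
      simp only [hF, AA, colnum, xval, List.length_cons, List.length_ofFn, finProdFinEquiv,
        Equiv.coe_fn_mk]
      push_cast
      congr 1
      ring
    · intro s
      have e2 : (List.map σ (finProdFinEquiv (ω.2.1 s, ω.2.2 s) :: List.ofFn (ω.1 s))) =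
          finProdFinEquiv (ω.2.2 s, ω.2.1 s) :: List.map σ (List.ofFn (ω.1 s)) := by
        rw [List.map_cons, hσ, swapPerm_apply]
      simp only [hF, AA]
      rw [e2]
      simp only [colnum, xval, List.length_cons, List.length_ofFn, finProdFinEquiv,
        Equiv.coe_fn_mk]
      push_cast
      congr 1
      ring
  refine congrArg Finset.card ?_
  ext ω
  simp only [Finset.mem_filter, Finset.mem_univ, true_and]
  rw [hpat]

end Pool.Agent.H143FP
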