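import Pool.Agent.H143FP.Comb
import Pool.Agent.H143FP.Ent

/-!
# Fractal permutons: the finite upper bound
-/

open Finset

set_option linter.unusedSectionVars false

namespace Pool.Agent.H143FP

variable {n : ℕ} {C : Type*} [Fintype C] [DecidableEq C]

/-- cell counts -/
def counts (w : Fin n → C) (i : C) : ℕ := (univ.filter fun s => w s = i).card

/-- permutations compatible with a cell assignment -/
def Compat (cn rn : C → ℕ) (w : Fin n → C) (π : Equiv.Perm (Fin n)) : Prop :=
  (w ∘ Tuple.sort (rn ∘ w)) ∘ π = w ∘ Tuple.sort (cn ∘ w)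

lemma comp_sort_of_order {cn : C → ℕ} (hcn : Function.Injective cn) (w : Fin n → C)
    (x : Fin n → ℝ) (hx : ∀ s t, cn (w s) < cn (w t) → x s < x t) :
    w ∘ Tuple.sort x = w ∘ Tuple.sort (cn ∘ w) := by
  have h1 : Monotone ((cn ∘ w) ∘ Tuple.sort x) := by
    intro i j hij
    by_contra hcon
    push Not at hcon
    have h2 := hx _ _ hcon
    exact absurd (Tuple.monotone_sort x hij) (not_le.2 h2)
  have h2 := Tuple.comp_sort_eq_comp_iff_monotone.2 h1
  funext i
  exact hcn (congrFun h2 i)

lemma compat_of_order {cn rn : C → ℕ} (hcn : Function.Injective cn) (hrn : Function.Injective rn)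
    (w : Fin n → C) (p : Fin n → ℝ × ℝ)
    (hx : ∀ s t, cn (w s) < cn (w t) → (p s).1 < (p t).1)
    (hy : ∀ s t, rn (w s) < rn (w t) → (p s).2 < (p t).2) :
    Compat cn rn w (pattern p) := by
  unfold Compat
  rw [← comp_sort_of_order hcn w (fun s => (p s).1) hx,
    ← comp_sort_of_order hrn w (fun s => (p s).2) hy]
  funext i
  simp [pattern]

lemma exists_perm_of_counts {w w₀ : Fin n → C} (h : counts w = counts w₀) :
    ∃ γ : Equiv.Perm (Fin n), w = w₀ ∘ γ := by
  classical
  have hc : ∀ i, Fintype.card {s // w s = i} = Fintype.card {s // w₀ s = i} := by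
    intro i
    rw [Fintype.card_subtype, Fintype.card_subtype]
    exact congrFun h i
  let e : ∀ i, {s // w s = i} ≃ {s // w₀ s = i} := fun i => Fintype.equivOfCardEq (hc i)
  refine ⟨(Equiv.sigmaFiberEquiv w).symm.trans
    ((Equiv.sigmaCongrRight e).trans (Equiv.sigmaFiberEquiv w₀)), ?_⟩
  funext s
  exact (e (w s) ⟨s, rfl⟩).2.symm

lemma compat_congr {cn rn : C → ℕ} (hcn : Function.Injective cn) (hrn : Function.Injective rn)
    {w w₀ : Fin n → C} (h : counts w = counts w₀) (π : Equiv.Perm (Fin n)) :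
    Compat cn rn w π ↔ Compat cn rn w₀ π := by
  obtain ⟨γ, rfl⟩ := exists_perm_of_counts h
  have h1 : (w₀ ∘ γ) ∘ Tuple.sort (cn ∘ (w₀ ∘ γ)) = w₀ ∘ Tuple.sort (cn ∘ w₀) := by
    have := Tuple.comp_perm_comp_sort_eq_comp_sort (f := cn ∘ w₀) (σ := γ)
    funext i
    exact hcn (congrFun this i)
  have h2 : (w₀ ∘ γ) ∘ Tuple.sort (rn ∘ (w₀ ∘ γ)) = w₀ ∘ Tuple.sort (rn ∘ w₀) := by
    have := Tuple.comp_perm_comp_sort_eq_comp_sort (f := rn ∘ w₀) (σ := γ)
    funext i
    exact hrn (congrFun this i)
  unfold Compat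
  rw [h1, h2]

open Classical in
lemma compat_card (cn rn : C → ℕ) (w : Fin n → C) :
    (univ.filter fun π : Equiv.Perm (Fin n) => Compat cn rn w π).card ≤
      ∏ i, (counts w i).factorial := by
  have h1 : ∏ i, (counts w i).factorial =
      Fintype.card {g : Equiv.Perm (Fin n) // w ∘ g = w} := by
    rw [DomMulAct.stabilizer_card]
    apply Finset.prod_congr rfl
    intro i _
    rw [Fintype.card_subtype]
    rfl
  rw [h1, Fintype.card_subtype]
  apply Finset.card_le_card_of_injOn
    (fun π => (Tuple.sort (cn ∘ w)).symm.trans (π.trans (Tuple.sort (rn ∘ w))))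
  · intro π hπ
    have h2 : Compat cn rn w π := (Finset.mem_filter.1 hπ).2
    unfold Compat at h2
    simp only [Finset.coe_filter, Finset.mem_univ, true_and, Set.mem_ofPred_eq]
    funext s
    have h3 := congrFun h2 ((Tuple.sort (cn ∘ w)).symm s)
    simpa using h3
  · intro π _ π' _ h
    apply Equiv.ext
    intro i
    have h2 := Equiv.congr_fun h (Tuple.sort (cn ∘ w) i)
    simpa using h2

/-- Gibbs' inequality. -/
lemma gibbs {T : Type*} [Fintype T] (p Q : T → ℝ) (hp : ∀ t, 0 ≤ p t) (hp1 : ∑ t, p t = 1)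
    (hQ : ∀ t, 0 ≤ Q t) (hQ1 : ∑ t, Q t ≤ 1) (hpQ : ∀ t, p t ≠ 0 → Q t ≠ 0) :
    ∑ t, Real.negMulLog (p t) ≤ ∑ t, p t * (-Real.log (Q t)) := by
  have h : ∀ t, Real.negMulLog (p t) - p t * (-Real.log (Q t)) ≤ Q t - p t := by
    intro t
    by_cases h0 : p t = 0
    · rw [h0]; simp [hQ t]
    · have hpt : 0 < p t := lt_of_le_of_ne (hp t) (Ne.symm h0)
      have hQt : 0 < Q t := lt_of_le_of_ne (hQ t) (Ne.symm (hpQ t h0))
      have h1 := Real.log_le_sub_one_of_pos (show 0 < Q t / p t by positivity)
      rw [Real.log_div hQt.ne' hpt.ne'] at h1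
      unfold Real.negMulLog
      have h2 : p t * (Real.log (Q t) - Real.log (p t)) ≤ p t * (Q t / p t - 1) :=
        mul_le_mul_of_nonneg_left h1 hpt.le
      have h3 : p t * (Q t / p t - 1) = Q t - p t := by field_simp
      rw [h3] at h2
      linarith
  have h2 := Finset.sum_le_sum (fun t (_ : t ∈ univ) => h t)
  rw [Finset.sum_sub_distrib, Finset.sum_sub_distrib, hp1] at h2
  linarith

/-- the weight of a count vector -/
noncomputable def qwt (j : C → ℕ) : ℝ := ∏ i, ((1 / 2 : ℝ) ^ (j i + 1) / (j i).factorial)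

lemma qwt_pos (j : C → ℕ) : 0 < qwt j := Finset.prod_pos (fun i _ => by positivity)

lemma neg_log_qwt (w : Fin n → C) :
    -Real.log (qwt (counts w)) = ((n : ℝ) + Fintype.card C) * Real.log 2 +
      ∑ i, Real.log ((counts w i).factorial) := by
  unfold qwt
  rw [Real.log_prod (fun i _ => by positivity)]
  have h : ∀ i : C, Real.log ((1 / 2 : ℝ) ^ (counts w i + 1) / (counts w i).factorial) =
      -(((counts w i : ℝ) + 1) * Real.log 2) - Real.log ((counts w i).factorial) := by
    intro i
    rw [Real.log_div (by positivity) (by positivity), Real.log_pow, one_div, Real.log_inv]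
    push_cast; ring
  simp only [h]
  rw [Finset.sum_sub_distrib, Finset.sum_neg_distrib, ← Finset.sum_mul, Finset.sum_add_distrib]
  have h2 : ∑ i, (counts w i : ℝ) = n := sum_counts w
  rw [h2]
  simp
  ring

open Classical in
/-- the comparison weight of a permutation -/
noncomputable def Qw (n : ℕ) (cn rn : C → ℕ) (π : Equiv.Perm (Fin n)) : ℝ :=
  ∑ j ∈ (univ : Finset (Fin n → C)).image counts,
    if ∃ w : Fin n → C, counts w = j ∧ Compat cn rn w π then qwt j else 0

lemma Qw_ge {cn rn : C → ℕ} {w : Fin n → C} {π : Equiv.Perm (Fin n)} (h : Compat cn rn w π) :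
    qwt (counts w) ≤ Qw n cn rn π := by
  classical
  unfold Qw
  have h1 : counts w ∈ (univ : Finset (Fin n → C)).image counts :=
    Finset.mem_image_of_mem _ (Finset.mem_univ w)
  calc qwt (counts w) = if ∃ w' : Fin n → C, counts w' = counts w ∧ Compat cn rn w' π
        then qwt (counts w) else 0 := by rw [if_pos ⟨w, rfl, h⟩]
    _ ≤ _ := Finset.single_le_sum (f := fun j => if ∃ w : Fin n → C, counts w = j ∧
        Compat cn rn w π then qwt j else 0) (fun j _ => by
          split_ifs
          · exact (qwt_pos j).le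
          · exact le_rfl) h1

lemma Qw_nonneg (cn rn : C → ℕ) (π : Equiv.Perm (Fin n)) : 0 ≤ Qw n cn rn π := by
  classical
  unfold Qw
  apply Finset.sum_nonneg
  intro j _
  split_ifs
  · exact (qwt_pos j).le
  · exact le_rfl

lemma Qw_sum {cn rn : C → ℕ} (hcn : Function.Injective cn) (hrn : Function.Injective rn) :
    ∑ π : Equiv.Perm (Fin n), Qw n cn rn π ≤ 1 := by
  classical
  unfold Qw
  rw [Finset.sum_comm]
  have h1 : ∀ j ∈ (univ : Finset (Fin n → C)).image counts,
      ∑ π : Equiv.Perm (Fin n), (if ∃ w : Fin n → C, counts w = j ∧ Compat cn rn w π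
        then qwt j else 0) ≤ ∏ i, (1 / 2 : ℝ) ^ (j i + 1) := by
    intro j hj
    obtain ⟨w₀, _, rfl⟩ := Finset.mem_image.1 hj
    rw [← Finset.sum_filter, Finset.sum_const, nsmul_eq_mul]
    have h2 : (univ.filter fun π : Equiv.Perm (Fin n) => ∃ w : Fin n → C,
        counts w = counts w₀ ∧ Compat cn rn w π) =
        univ.filter fun π : Equiv.Perm (Fin n) => Compat cn rn w₀ π := by
      ext π
      simp only [Finset.mem_filter, Finset.mem_univ, true_and]
      constructor
      · rintro ⟨w, hw, hc⟩
        exact (compat_congr hcn hrn hw π).1 hc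
      · intro h
        exact ⟨w₀, rfl, h⟩
    rw [h2]
    have h3 : ((univ.filter fun π : Equiv.Perm (Fin n) => Compat cn rn w₀ π).card : ℝ) ≤
        ∏ i, ((counts w₀ i).factorial : ℝ) := by
      exact_mod_cast compat_card cn rn w₀
    calc _ ≤ (∏ i, ((counts w₀ i).factorial : ℝ)) * qwt (counts w₀) :=
          mul_le_mul_of_nonneg_right h3 (qwt_pos _).le
      _ = _ := by
          unfold qwt
          rw [← Finset.prod_mul_distrib]
          apply Finset.prod_congr rfl
          intro i _
          field_simp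
  refine (Finset.sum_le_sum h1).trans ?_
  have hsub : (univ : Finset (Fin n → C)).image counts ⊆
      Fintype.piFinset (fun _ : C => Finset.range (n + 1)) := by
    intro j hj
    obtain ⟨w₀, _, rfl⟩ := Finset.mem_image.1 hj
    rw [Fintype.mem_piFinset]
    intro i
    rw [Finset.mem_range]
    have : counts w₀ i ≤ n := by
      unfold counts
      calc _ ≤ (univ : Finset (Fin n)).card := Finset.card_filter_le _ _
        _ = n := by simp
    omega
  calc _ ≤ ∑ j ∈ Fintype.piFinset (fun _ : C => Finset.range (n + 1)),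
        ∏ i, (1 / 2 : ℝ) ^ (j i + 1) :=
        Finset.sum_le_sum_of_subset_of_nonneg hsub (fun j _ _ => by positivity)
    _ = ∏ _i : C, ∑ t ∈ Finset.range (n + 1), (1 / 2 : ℝ) ^ (t + 1) := by
        rw [Finset.prod_univ_sum]
    _ ≤ 1 := by
        apply Finset.prod_le_one
        · intro i _; positivity
        · intro i _
          have : ∀ N : ℕ, ∑ t ∈ Finset.range N, (1 / 2 : ℝ) ^ (t + 1) = 1 - (1 / 2) ^ N := by
            intro N
            induction N with
            | zero => simp
            | succ N ih =>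
              rw [Finset.sum_range_succ, ih]; ring
          rw [this]
          have : (0 : ℝ) < (1 / 2) ^ (n + 1) := by positivity
          linarith

/-- The finite upper bound. -/
theorem finite_upper [Nonempty C] (hn : n = Fintype.card C) (cn rn : C → ℕ)
    (hcn : Function.Injective cn) (hrn : Function.Injective rn)
    (P : (Fin n → C) → Equiv.Perm (Fin n) → ℝ) (hP0 : ∀ w π, 0 ≤ P w π)
    (hP1 : ∀ w, ∑ π, P w π = 1) (hPc : ∀ w π, P w π ≠ 0 → Compat cn rn w π) :
    ∑ π : Equiv.Perm (Fin n), Real.negMulLog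
      ((Fintype.card (Fin n → C) : ℝ)⁻¹ * ∑ w, P w π) ≤
      (Fintype.card C : ℝ) * (2 * Real.log 2 + 1 / 2) := by
  classical
  have hK : (0 : ℝ) < Fintype.card C := by exact_mod_cast Fintype.card_pos
  have hW : (0 : ℝ) < Fintype.card (Fin n → C) := by exact_mod_cast Fintype.card_pos
  have hp1 : ∑ π, (Fintype.card (Fin n → C) : ℝ)⁻¹ * ∑ w, P w π = 1 := by
    rw [← Finset.mul_sum, Finset.sum_comm]
    simp only [hP1]
    rw [Finset.sum_const, Finset.card_univ, nsmul_eq_mul, mul_one, inv_mul_cancel₀ hW.ne']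
  have hg := gibbs (fun π => (Fintype.card (Fin n → C) : ℝ)⁻¹ * ∑ w, P w π)
    (fun π => Qw n cn rn π)
    (fun π => mul_nonneg (inv_nonneg.2 hW.le) (Finset.sum_nonneg fun w _ => hP0 w π)) hp1
    (fun π => Qw_nonneg cn rn π) (Qw_sum hcn hrn) (by
      intro π hπ
      have : ∑ w, P w π ≠ 0 := fun h => hπ (by simp [h])
      obtain ⟨w, _, hw⟩ := Finset.exists_ne_zero_of_sum_ne_zero this
      exact ((qwt_pos _).trans_le (Qw_ge (hPc w π hw))).ne')
  refine hg.trans ?_
  have h1 : ∑ π, (Fintype.card (Fin n → C) : ℝ)⁻¹ * (∑ w, P w π) * (-Real.log (Qw n cn rn π)) =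
      (Fintype.card (Fin n → C) : ℝ)⁻¹ * ∑ w, ∑ π, P w π * (-Real.log (Qw n cn rn π)) := by
    rw [Finset.sum_comm, Finset.mul_sum]
    apply Finset.sum_congr rfl
    intro π _
    rw [mul_assoc, Finset.sum_mul]
  rw [h1]
  have h2 : ∀ w : Fin n → C, ∑ π, P w π * (-Real.log (Qw n cn rn π)) ≤
      ((n : ℝ) + Fintype.card C) * Real.log 2 +
        (∑ i, ((univ.filter fun s => w s = i).card : ℝ) ^ 2 - n) / 2 := by
    intro w
    calc ∑ π, P w π * (-Real.log (Qw n cn rn π))
        ≤ ∑ π, P w π * (-Real.log (qwt (counts w))) := by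
          apply Finset.sum_le_sum
          intro π _
          by_cases h0 : P w π = 0
          · rw [h0]; simp
          · apply mul_le_mul_of_nonneg_left _ (hP0 w π)
            have := Real.log_le_log (qwt_pos _) (Qw_ge (hPc w π h0))
            linarith
      _ = -Real.log (qwt (counts w)) := by
          rw [← Finset.sum_mul, hP1, one_mul]
      _ = ((n : ℝ) + Fintype.card C) * Real.log 2 +
          ∑ i, Real.log ((counts w i).factorial) := neg_log_qwt w
      _ ≤ ((n : ℝ) + Fintype.card C) * Real.log 2 +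
          ∑ i, ((counts w i : ℝ) * (counts w i - 1) / 2) := by
          gcongr with i _
          exact log_factorial_le_sq _
      _ = _ := by
          have e : ∀ i : C, ((counts w i : ℝ) * (counts w i - 1) / 2) =
              ((univ.filter fun s => w s = i).card : ℝ) ^ 2 / 2 -
                ((univ.filter fun s => w s = i).card : ℝ) / 2 := by
            intro i
            unfold counts
            ring
          simp only [e]
          rw [Finset.sum_sub_distrib, ← Finset.sum_div, ← Finset.sum_div, sum_counts]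
          ring
  have hWcard : (Fintype.card (Fin n → C) : ℝ) = (Fintype.card C : ℝ) ^ n := by
    rw [Fintype.card_fun, Fintype.card_fin]; push_cast; rfl
  calc (Fintype.card (Fin n → C) : ℝ)⁻¹ * ∑ w, ∑ π, P w π * (-Real.log (Qw n cn rn π))
      ≤ (Fintype.card (Fin n → C) : ℝ)⁻¹ * ∑ w : Fin n → C, (((n : ℝ) + Fintype.card C) *
          Real.log 2 + (∑ i, ((univ.filter fun s => w s = i).card : ℝ) ^ 2 - n) / 2) := by
        apply mul_le_mul_of_nonneg_left _ (inv_nonneg.2 hW.le)
        exact Finset.sum_le_sum (fun w _ => h2 w)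
    _ = ((n : ℝ) + Fintype.card C) * Real.log 2 + ((n : ℝ) * (n - 1) / Fintype.card C) / 2 := by
        rw [Finset.sum_add_distrib, ← Finset.sum_div, Finset.sum_sub_distrib, sum_sq_counts,
          Finset.sum_const, Finset.sum_const, Finset.card_univ, nsmul_eq_mul, nsmul_eq_mul, hWcard]
        field_simp
        ring
    _ ≤ _ := by
        have hnR : (n : ℝ) = Fintype.card C := by exact_mod_cast hn
        rw [hnR]
        have : (Fintype.card C : ℝ) * (Fintype.card C - 1) / Fintype.card C =
            Fintype.card C - 1 := by field_simp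
        rw [this]
        linarith

end Pool.Agent.H143FP
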