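import Pool.Agent.H143FP.Lower
import Pool.Agent.H143FP.Upper

/-!
# Fractal permutons: from the finite bounds to the sampling entropy
-/

open MeasureTheory ProbabilityTheory Filter Topology
open scoped ENNReal

namespace Pool.Agent.H143FP

lemma measurableSet_sort {n : ℕ} {E : Type*} [MeasurableSpace E] (f : E → Fin n → ℝ)
    (hf : ∀ i, Measurable fun e => f e i) (σ : Equiv.Perm (Fin n)) :
    MeasurableSet {e | Tuple.sort (f e) = σ} := by
  have h : {e | Tuple.sort (f e) = σ} =
      (⋂ i, ⋂ j, {e | i ≤ j → f e (σ i) ≤ f e (σ j)}) ∩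
      (⋂ i, ⋂ j, {e | i < j → f e (σ i) = f e (σ j) → σ i < σ j}) := by
    ext e
    have := Tuple.eq_sort_iff (f := f e) (σ := σ)
    constructor
    · intro he
      have he' : σ = Tuple.sort (f e) := (show Tuple.sort (f e) = σ from he).symm
      obtain ⟨h1, h2⟩ := this.1 he'
      refine ⟨?_, ?_⟩
      · simp only [Set.mem_iInter]
        intro i j hij
        exact h1 hij
      · simp only [Set.mem_iInter]
        intro i j hij
        exact h2 i j hij
    · rintro ⟨h1, h2⟩
      simp only [Set.mem_iInter] at h1 h2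
      exact (this.2 ⟨fun i j hij => h1 i j hij, fun i j hij => h2 i j hij⟩).symm
  rw [h]
  apply MeasurableSet.inter
  · refine MeasurableSet.iInter fun i => MeasurableSet.iInter fun j => ?_
    by_cases hij : i ≤ j
    · simp only [hij, true_implies]
      exact measurableSet_le (hf _) (hf _)
    · simp [hij]
  · refine MeasurableSet.iInter fun i => MeasurableSet.iInter fun j => ?_
    by_cases hij : i < j
    · simp only [hij, true_implies]
      by_cases hs : σ i < σ j
      · simp [hs]
      · simp only [hs, imp_false]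
        exact (measurableSet_eq_fun (hf _) (hf _)).compl
    · simp [hij]

lemma measurableSet_pattern {n : ℕ} {E : Type*} [MeasurableSpace E] (f : E → Fin n → ℝ × ℝ)
    (hf : ∀ i, Measurable fun e => f e i) (π : Equiv.Perm (Fin n)) :
    MeasurableSet {e | pattern (f e) = π} := by
  have h : {e | pattern (f e) = π} = ⋃ ρ : Equiv.Perm (Fin n),
      {e | Tuple.sort (fun i => (f e i).1) = ρ} ∩
        {e | Tuple.sort (fun i => (f e i).2) = π.symm.trans ρ} := by
    ext e
    simp only [Set.mem_iUnion, Set.mem_inter_iff]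
    constructor
    · intro he
      refine ⟨_, rfl, ?_⟩
      have he' : pattern (f e) = π := he
      have : Tuple.sort (fun i => (f e i).2) =
          (pattern (f e)).symm.trans (Tuple.sort fun i => (f e i).1) := by
        apply Equiv.ext
        intro i
        simp [pattern]
      rw [he'] at this
      exact this
    · rintro ⟨ρ, h1, h2⟩
      have h1' : Tuple.sort (fun i => (f e i).1) = ρ := h1
      have h2' : Tuple.sort (fun i => (f e i).2) = π.symm.trans ρ := h2
      show pattern (f e) = π
      unfold pattern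
      rw [h1', h2']
      apply Equiv.ext
      intro i
      simp
  rw [h]
  exact MeasurableSet.iUnion fun ρ =>
    (measurableSet_sort _ (fun i => (hf i).fst) _).inter (measurableSet_sort _ (fun i => (hf i).snd) _)

/-- scaling does not change the pattern -/
lemma pattern_scale {n : ℕ} (p p' : Fin n → ℝ × ℝ) (c : ℝ) (hc : 0 < c)
    (h1 : ∀ s, (p s).1 = (p' s).1 / c) (h2 : ∀ s, (p s).2 = (p' s).2 / c) :
    pattern p = pattern p' := by
  unfold pattern
  rw [sort_congr (f := fun i => (p i).1) (g := fun i => (p' i).1) (fun s t => by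
      simp only [h1]; exact div_le_div_iff_of_pos_right hc),
    sort_congr (f := fun i => (p i).2) (g := fun i => (p' i).2) (fun s t => by
      simp only [h2]; exact div_le_div_iff_of_pos_right hc)]

lemma pi_decomp {n : ℕ} {E : Type*} [MeasurableSpace E] {G : Type*} [Fintype G]
    (μ : Measure E) [IsProbabilityMeasure μ] (A : G → E → E) (hA : ∀ g, Measurable (A g))
    (h : μ = ∑ g, (Fintype.card G : ℝ≥0∞)⁻¹ • μ.map (A g)) :
    (Measure.pi fun _ : Fin n => μ) = ∑ g : Fin n → G,
      (Fintype.card (Fin n → G) : ℝ≥0∞)⁻¹ •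
        (Measure.pi fun _ : Fin n => μ).map (fun z s => A (g s) (z s)) := by
  classical
  apply Measure.pi_eq
  intro S hS
  have hmeas : ∀ g : Fin n → G, Measurable (fun (z : Fin n → E) s => A (g s) (z s)) := by
    intro g
    exact measurable_pi_lambda _ fun s => (hA _).comp (measurable_pi_apply s)
  have hpi : MeasurableSet (Set.univ.pi S) := MeasurableSet.univ_pi hS
  rw [Measure.finsetSum_apply]
  have h1 : ∀ g : Fin n → G, ((Fintype.card (Fin n → G) : ℝ≥0∞)⁻¹ •
      (Measure.pi fun _ : Fin n => μ).map (fun z s => A (g s) (z s))) (Set.univ.pi S) =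
      ∏ i, ((Fintype.card G : ℝ≥0∞)⁻¹ * μ ((A (g i)) ⁻¹' S i)) := by
    intro g
    rw [Measure.smul_apply, Measure.map_apply (hmeas g) hpi, smul_eq_mul]
    have : (fun (z : Fin n → E) s => A (g s) (z s)) ⁻¹' Set.univ.pi S =
        Set.univ.pi fun i => (A (g i)) ⁻¹' S i := by
      ext z; simp [Set.mem_pi]
    rw [this, Measure.pi_pi, Finset.prod_mul_distrib, Finset.prod_const, Finset.card_univ,
      Fintype.card_fun, Fintype.card_fin]
    push_cast
    rw [ENNReal.inv_pow]
  rw [Finset.sum_congr rfl (fun g _ => h1 g)]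
  have h2 : ∀ i, μ (S i) = ∑ g, (Fintype.card G : ℝ≥0∞)⁻¹ * μ ((A g) ⁻¹' S i) := by
    intro i
    conv_lhs => rw [h]
    rw [Measure.finsetSum_apply]
    apply Finset.sum_congr rfl
    intro g _
    rw [Measure.smul_apply, Measure.map_apply (hA g) (hS i), smul_eq_mul]
  rw [Finset.prod_congr rfl (fun i _ => h2 i), Finset.prod_univ_sum]
  simp

lemma law_formula {n : ℕ} {G : Type*} [Fintype G]
    (μ : Measure (ℝ × ℝ)) [IsProbabilityMeasure μ] (A : G → ℝ × ℝ → ℝ × ℝ)
    (hA : ∀ g, Measurable (A g))
    (h : μ = ∑ g, (Fintype.card G : ℝ≥0∞)⁻¹ • μ.map (A g)) (π : Equiv.Perm (Fin n)) :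
    (Measure.pi fun _ : Fin n => μ).real {p | pattern p = π} =
      (Fintype.card (Fin n → G) : ℝ)⁻¹ * ∑ g : Fin n → G,
        (Measure.pi fun _ : Fin n => μ).real {z | pattern (fun s => A (g s) (z s)) = π} := by
  classical
  have hmeas : ∀ g : Fin n → G, Measurable (fun (z : Fin n → ℝ × ℝ) s => A (g s) (z s)) := by
    intro g
    exact measurable_pi_lambda _ fun s => (hA _).comp (measurable_pi_apply s)
  have hS : MeasurableSet {p : Fin n → ℝ × ℝ | pattern p = π} :=
    measurableSet_pattern (fun p => p) (fun i => measurable_pi_apply i) π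
  have h1 : (Measure.pi fun _ : Fin n => μ) {p | pattern p = π} = ∑ g : Fin n → G,
      (Fintype.card (Fin n → G) : ℝ≥0∞)⁻¹ * (Measure.pi fun _ : Fin n => μ)
        {z | pattern (fun s => A (g s) (z s)) = π} := by
    conv_lhs => rw [pi_decomp μ A hA h]
    rw [Measure.finsetSum_apply]
    apply Finset.sum_congr rfl
    intro g _
    rw [Measure.smul_apply, Measure.map_apply (hmeas g) hS, smul_eq_mul]
    rfl
  unfold Measure.real
  rw [h1, ENNReal.toReal_sum, Finset.mul_sum]
  · apply Finset.sum_congr rfl
    intro g _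
    rw [ENNReal.toReal_mul, ENNReal.toReal_inv, ENNReal.toReal_natCast]
  · intro g _
    apply ENNReal.mul_ne_top
    · by_cases hc : Fintype.card (Fin n → G) = 0
      · exact absurd (Fintype.card_eq_zero_iff.1 hc) (by
          rw [not_isEmpty_iff]; exact ⟨g⟩)
      · exact ENNReal.inv_ne_top.2 (by exact_mod_cast hc)
    · exact measure_ne_top _ _

/-- the pattern probabilities sum to one -/
lemma sum_pattern_prob {n : ℕ} {E : Type*} [MeasurableSpace E] (P : Measure E)
    [IsProbabilityMeasure P] (f : E → Fin n → ℝ × ℝ) (hf : ∀ i, Measurable fun e => f e i) :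
    ∑ π : Equiv.Perm (Fin n), P.real {e | pattern (f e) = π} = 1 := by
  classical
  have h := measureReal_biUnion_finset (μ := P) (s := (Finset.univ : Finset (Equiv.Perm (Fin n))))
    (f := fun π => {e | pattern (f e) = π}) (by
      intro π _ π' _ hne
      rw [Function.onFun, Set.disjoint_left]
      intro e he he'
      exact hne ((show pattern (f e) = π from he).symm.trans he'))
    (fun π _ => measurableSet_pattern f hf π)
  rw [← h]
  have : (⋃ b ∈ (Finset.univ : Finset (Equiv.Perm (Fin n))), {e | pattern (f e) = b}) =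
      Set.univ := by
    ext e; simp
  rw [this]
  simp

/-- Jensen: a bound for almost every choice of the fine positions gives a bound for the entropy. -/
lemma entropy_jensen {n : ℕ} {E G : Type*} [MeasurableSpace E] [Fintype G] [DecidableEq G]
    [Nonempty G] (P : Measure E)
    [IsProbabilityMeasure P] (F : G → E → Fin n → ℝ × ℝ) (hF : ∀ g i, Measurable fun e => F g e i)
    (B : ℝ)
    (hB : ∀ᵐ e ∂P, B ≤ ∑ π : Equiv.Perm (Fin n), Real.negMulLog
      ((Fintype.card G : ℝ)⁻¹ * ((Finset.univ.filter fun g => pattern (F g e) = π).card : ℝ))) :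
    B ≤ ∑ π : Equiv.Perm (Fin n), Real.negMulLog
      ((Fintype.card G : ℝ)⁻¹ * ∑ g, P.real {e | pattern (F g e) = π}) := by
  classical
  have hG : (0 : ℝ) < Fintype.card G := by exact_mod_cast Fintype.card_pos
  set f : Equiv.Perm (Fin n) → E → ℝ := fun π e =>
    (Fintype.card G : ℝ)⁻¹ * ((Finset.univ.filter fun g => pattern (F g e) = π).card : ℝ) with hf
  have hfe : ∀ π, f π = fun e => (Fintype.card G : ℝ)⁻¹ * ∑ g,
      Set.indicator {e | pattern (F g e) = π} (fun _ => (1 : ℝ)) e := by
    intro π
    funext e
    simp only [hf]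
    rw [Finset.card_filter]
    push_cast
    have : ∀ g, (if pattern (F g e) = π then (1 : ℝ) else 0) =
        Set.indicator {e | pattern (F g e) = π} (fun _ => (1 : ℝ)) e := by
      intro g
      rw [Set.indicator_apply]
      rfl
    simp only [this]
  have hmeasSet : ∀ g π, MeasurableSet {e | pattern (F g e) = π} := fun g π =>
    measurableSet_pattern (F g) (hF g) π
  have hfm : ∀ π, Measurable (f π) := by
    intro π
    rw [hfe]
    apply Measurable.const_mul
    apply Finset.measurable_sum
    intro g _
    exact (measurable_const).indicator (hmeasSet g π)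
  have hf0 : ∀ π e, 0 ≤ f π e := fun π e => by simp only [hf]; positivity
  have hf1 : ∀ π e, f π e ≤ 1 := by
    intro π e
    simp only [hf]
    rw [inv_mul_le_one₀ hG]
    exact_mod_cast (Finset.card_le_univ _)
  have hfint : ∀ π, Integrable (f π) P := by
    intro π
    apply Integrable.of_bound (hfm π).aestronglyMeasurable 1
    exact Filter.Eventually.of_forall fun e => by
      rw [Real.norm_eq_abs, abs_of_nonneg (hf0 π e)]; exact hf1 π e
  have hgint : ∀ π, Integrable (Real.negMulLog ∘ f π) P := by
    intro π
    apply Integrable.of_bound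
      (Real.continuous_negMulLog.measurable.comp (hfm π)).aestronglyMeasurable 1
    exact Filter.Eventually.of_forall fun e => by
      rw [Function.comp_apply, Real.norm_eq_abs,
        abs_of_nonneg (Real.negMulLog_nonneg (hf0 π e) (hf1 π e))]
      exact (Real.negMulLog_le_one_sub_self (hf0 π e)).trans (by linarith [hf0 π e])
  have hint : ∀ π, ∫ e, f π e ∂P =
      (Fintype.card G : ℝ)⁻¹ * ∑ g, P.real {e | pattern (F g e) = π} := by
    intro π
    rw [hfe, integral_const_mul, integral_finsetSum]
    · congr 1
      apply Finset.sum_congr rfl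
      intro g _
      rw [integral_indicator_const _ (hmeasSet g π)]
      simp
    · intro g _
      exact (integrable_const (1 : ℝ)).indicator (hmeasSet g π)
  have hJ : ∀ π, ∫ e, Real.negMulLog (f π e) ∂P ≤ Real.negMulLog (∫ e, f π e ∂P) := by
    intro π
    exact Real.concaveOn_negMulLog.le_map_integral Real.continuous_negMulLog.continuousOn
      isClosed_Ici (Filter.Eventually.of_forall fun e => hf0 π e) (hfint π) (hgint π)
  calc B = ∫ _e, B ∂P := by simp
    _ ≤ ∫ e, ∑ π, Real.negMulLog (f π e) ∂P := by
        apply integral_mono_ae (integrable_const _)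
        · exact integrable_finsetSum _ fun π _ => hgint π
        · exact hB
    _ = ∑ π, ∫ e, Real.negMulLog (f π e) ∂P := integral_finsetSum _ fun π _ => hgint π
    _ ≤ ∑ π, Real.negMulLog (∫ e, f π e ∂P) := Finset.sum_le_sum fun π _ => hJ π
    _ = _ := by simp only [hint]

end Pool.Agent.H143FP
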