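import Pool.Agent.H143FP.Words

/-!
# Fractal permutons: weak convergence of the refinements to the self-similar measure
-/

open MeasureTheory ProbabilityTheory Filter Topology
open scoped ENNReal

namespace Pool.Agent.H143FP

variable {d : ℕ}

lemma corner_const (σ : Equiv.Perm (Fin d)) (w : List (Fin d)) :
    corner (fun _ => σ) w = ((colnum w : ℝ) / (d : ℝ) ^ w.length,
      (colnum (w.map σ) : ℝ) / (d : ℝ) ^ w.length) := by
  induction w with
  | nil => simp [corner, colnum]
  | cons i w ih =>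
    have hd : (0 : ℝ) < d := by exact_mod_cast i.pos
    simp only [corner, ih, colnum, List.map_cons, List.length_cons, Nat.cast_add, Nat.cast_mul,
      Prod.mk_add_mk]
    refine Prod.ext ?_ ?_
    · simp only
      rw [pow_succ]; field_simp
    · simp only
      rw [pow_succ]; field_simp

lemma AA_eq (σ : Equiv.Perm (Fin d)) (w : List (Fin d)) (z : ℝ × ℝ) :
    AA σ w z = ((corner (fun _ => σ) w).1 + z.1 / (d : ℝ) ^ w.length,
      (corner (fun _ => σ) w).2 + z.2 / (d : ℝ) ^ w.length) := by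
  rw [corner_const]
  simp only [AA, add_div]

lemma AA_mem_square (hd : 0 < d) (σ : Equiv.Perm (Fin d)) (w : List (Fin d)) {z : ℝ × ℝ}
    (hz : z ∈ Set.Icc (0 : ℝ × ℝ) 1) : AA σ w z ∈ square (fun _ => σ) w := by
  have hdR : (0 : ℝ) < (d : ℝ) ^ w.length := by positivity
  obtain ⟨h0, h1⟩ := hz
  rw [AA_eq]
  unfold square
  refine ⟨⟨?_, ?_⟩, ⟨?_, ?_⟩⟩
  · have : 0 ≤ z.1 := h0.1
    simp only
    have : 0 ≤ z.1 / (d : ℝ) ^ w.length := by positivity
    linarith
  · have : 0 ≤ z.2 := h0.2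
    simp only
    have : 0 ≤ z.2 / (d : ℝ) ^ w.length := by positivity
    linarith
  · have : z.1 ≤ 1 := h1.1
    simp only [Prod.fst_add]
    gcongr
  · have : z.2 ≤ 1 := h1.2
    simp only [Prod.snd_add]
    gcongr

lemma corner_mem_square (hd : 0 < d) (σ : Equiv.Perm (Fin d)) (w : List (Fin d)) :
    corner (fun _ => σ) w ∈ square (fun _ => σ) w := by
  have := AA_mem_square hd σ w (z := 0) ⟨le_rfl, by
    exact ⟨zero_le_one, zero_le_one⟩⟩
  rw [AA_eq] at this
  simpa using this

lemma square_subset (hd : 0 < d) (σ : Equiv.Perm (Fin d)) (w : List (Fin d)) :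
    square (fun _ => σ) w ⊆ Set.Icc (0 : ℝ × ℝ) 1 := by
  intro z hz
  unfold square at hz
  rw [corner_const] at hz
  obtain ⟨h0, h1⟩ := hz
  have hdR : (0 : ℝ) < (d : ℝ) ^ w.length := by positivity
  have hc1 : (colnum w : ℝ) + 1 ≤ (d : ℝ) ^ w.length := by exact_mod_cast colnum_lt w
  have hc2 : (colnum (w.map σ) : ℝ) + 1 ≤ (d : ℝ) ^ w.length := by
    have := colnum_lt (w.map σ)
    rw [List.length_map] at this
    exact_mod_cast this
  have a1 : (colnum w : ℝ) / (d : ℝ) ^ w.length + 1 / (d : ℝ) ^ w.length ≤ 1 := by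
    rw [← add_div, div_le_one hdR]; exact hc1
  have a2 : (colnum (w.map σ) : ℝ) / (d : ℝ) ^ w.length + 1 / (d : ℝ) ^ w.length ≤ 1 := by
    rw [← add_div, div_le_one hdR]; exact hc2
  have b1 : 0 ≤ (colnum w : ℝ) / (d : ℝ) ^ w.length := by positivity
  have b2 : 0 ≤ (colnum (w.map σ) : ℝ) / (d : ℝ) ^ w.length := by positivity
  exact ⟨⟨b1.trans h0.1, b2.trans h0.2⟩, ⟨le_trans h1.1 a1, le_trans h1.2 a2⟩⟩

lemma dist_corner (hd : 0 < d) (σ : Equiv.Perm (Fin d)) (w : List (Fin d)) {z : ℝ × ℝ}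
    (hz : z ∈ square (fun _ => σ) w) :
    dist z (corner (fun _ => σ) w) ≤ 1 / (d : ℝ) ^ w.length := by
  unfold square at hz
  obtain ⟨h0, h1⟩ := hz
  rw [Prod.dist_eq]
  apply max_le
  · rw [Real.dist_eq, abs_le]
    have := h0.1
    have h2 := h1.1
    simp only [Prod.fst_add] at h2
    have : (0 : ℝ) ≤ 1 / (d : ℝ) ^ w.length := by positivity
    constructor <;> linarith
  · rw [Real.dist_eq, abs_le]
    have := h0.2
    have h2 := h1.2
    simp only [Prod.snd_add] at h2
    have : (0 : ℝ) ≤ 1 / (d : ℝ) ^ w.length := by positivity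
    constructor <;> linarith

lemma volume_square (σ : Equiv.Perm (Fin d)) (w : List (Fin d)) :
    volume (square (fun _ => σ) w) =
      ENNReal.ofReal (1 / (d : ℝ) ^ w.length) * ENNReal.ofReal (1 / (d : ℝ) ^ w.length) := by
  unfold square
  rw [← Prod.mk.eta (p := corner (fun _ => σ) w), Prod.mk_add_mk, ← Set.Icc_prod_Icc,
    Measure.volume_eq_prod, Measure.prod_prod, Real.volume_Icc, Real.volume_Icc]
  simp

lemma measurableSet_square (σ : Equiv.Perm (Fin d)) (w : List (Fin d)) :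
    MeasurableSet (square (fun _ => σ) w) := measurableSet_Icc

lemma cond_prob (hd : 0 < d) (σ : Equiv.Perm (Fin d)) (w : List (Fin d)) :
    IsProbabilityMeasure (ProbabilityTheory.cond volume (square (fun _ => σ) w)) := by
  have hdR : (0 : ℝ) < (d : ℝ) ^ w.length := by positivity
  have h1 : ENNReal.ofReal (1 / (d : ℝ) ^ w.length) ≠ 0 := by
    rw [Ne, ENNReal.ofReal_eq_zero, not_le]; positivity
  apply ProbabilityTheory.cond_isProbabilityMeasure_of_finite
  · rw [volume_square]; exact mul_ne_zero h1 h1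
  · rw [volume_square]; exact ENNReal.mul_ne_top ENNReal.ofReal_ne_top ENNReal.ofReal_ne_top

lemma integral_avg {ι : Type*} [Fintype ι] (c : ℝ≥0∞)
    (m : ι → Measure (ℝ × ℝ)) (hm : ∀ i, IsFiniteMeasure (m i)) (hc : c ≠ ⊤) (f : ℝ × ℝ → ℝ)
    (hf : Continuous f) (hb : ∃ C, ∀ z, |f z| ≤ C) :
    ∫ z, f z ∂(∑ i, c • m i) = c.toReal * ∑ i, ∫ z, f z ∂(m i) := by
  obtain ⟨C, hC⟩ := hb
  rw [integral_finsetSum_measure]
  · rw [Finset.mul_sum]
    apply Finset.sum_congr rfl
    intro i _
    rw [integral_smul_measure, smul_eq_mul]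
  · intro i _
    apply Integrable.smul_measure _ hc
    have := hm i
    exact Integrable.of_bound hf.measurable.aestronglyMeasurable C
      (Filter.Eventually.of_forall fun z => by rw [Real.norm_eq_abs]; exact hC z)

lemma integral_close (m : Measure (ℝ × ℝ)) [IsProbabilityMeasure m] (f : ℝ × ℝ → ℝ)
    (hf : Integrable f m) (x ε : ℝ) (h : ∀ᵐ z ∂m, |f z - x| ≤ ε) : |∫ z, f z ∂m - x| ≤ ε := by
  have h1 : ∫ z, f z ∂m - x = ∫ z, (f z - x) ∂m := by
    rw [integral_sub hf (integrable_const _)]; simp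
  rw [h1]
  have := norm_integral_le_of_norm_le_const (μ := m) (f := fun z => f z - x) (C := ε)
    (by simpa [Real.norm_eq_abs] using h)
  simpa [Real.norm_eq_abs] using this

theorem weakLimit_of_selfSim (hd : 2 ≤ d) {σ : Equiv.Perm (Fin d)} {μ : Measure (ℝ × ℝ)}
    [IsProbabilityMeasure μ] (h : SelfSim σ μ) (hμ : ∀ᵐ z ∂μ, z ∈ Set.Icc (0 : ℝ × ℝ) 1) :
    WeakLimit (refined (fun _ => σ)) μ := by
  have hd0 : 0 < d := by omega
  have : Nonempty (Fin d) := ⟨⟨0, hd0⟩⟩
  have hd1 : (1 : ℝ) < d := by exact_mod_cast hd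
  have hdpos : (0 : ℝ) < d := by positivity
  intro f hf hb
  obtain ⟨C, hC⟩ := hb
  have hK : IsCompact (Set.Icc (0 : ℝ × ℝ) 1) := isCompact_Icc
  have huc := hK.uniformContinuousOn_of_continuous hf.continuousOn
  rw [Metric.uniformContinuousOn_iff] at huc
  rw [Metric.tendsto_atTop]
  intro ε hε
  obtain ⟨δ, hδ, hunif⟩ := huc (ε / 3) (by positivity)
  have hpow : Tendsto (fun n : ℕ => 1 / (d : ℝ) ^ n) atTop (𝓝 0) := by
    have := tendsto_pow_atTop_nhds_zero_of_lt_one (r := 1 / (d : ℝ)) (by positivity)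
      (by rw [div_lt_one hdpos]; exact hd1)
    simpa [one_div, inv_pow] using this
  obtain ⟨N, hN⟩ := (Metric.tendsto_atTop.1 hpow) δ hδ
  refine ⟨N, fun n hn => ?_⟩
  have hn' : 1 / (d : ℝ) ^ n < δ := by
    have := hN n hn
    rw [Real.dist_eq, sub_zero, abs_of_pos (by positivity)] at this
    exact this
  have hpn : (0 : ℝ) < (d : ℝ) ^ n := by positivity
  -- oscillation on squares
  have hosc : ∀ w : Fin n → Fin d, ∀ z ∈ square (fun _ => σ) (List.ofFn w),
      |f z - f (corner (fun _ => σ) (List.ofFn w))| ≤ ε / 3 := by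
    intro w z hz
    have h1 := hunif z (square_subset hd0 σ _ hz) (corner (fun _ => σ) (List.ofFn w))
      (square_subset hd0 σ _ (corner_mem_square hd0 σ _)) (by
        have := dist_corner hd0 σ _ hz
        rw [List.length_ofFn] at this
        exact lt_of_le_of_lt this hn')
    rw [Real.dist_eq] at h1
    exact h1.le
  have hint : ∀ m : Measure (ℝ × ℝ), IsFiniteMeasure m → Integrable f m := by
    intro m _
    exact Integrable.of_bound hf.measurable.aestronglyMeasurable C
      (Filter.Eventually.of_forall fun z => by rw [Real.norm_eq_abs]; exact hC z)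
  have hctop : ((d : ℝ≥0∞) ^ n)⁻¹ ≠ ⊤ := by
    rw [Ne, ENNReal.inv_eq_top]
    have : (d : ℝ≥0∞) ≠ 0 := by exact_mod_cast hd0.ne'
    exact pow_ne_zero n this
  have e1 : ∫ z, f z ∂(refined (fun _ => σ) n) = (((d : ℝ≥0∞) ^ n)⁻¹).toReal *
      ∑ w : Fin n → Fin d, ∫ z, f z ∂(ProbabilityTheory.cond volume
        (square (fun _ => σ) (List.ofFn w))) := by
    unfold refined
    exact integral_avg _ _ (fun w => by
      have := cond_prob hd0 σ (List.ofFn w); infer_instance) hctop f hf ⟨C, hC⟩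
  have hself := selfSim_iterate h n
  have ecard : (Fintype.card (Fin n → Fin d) : ℝ≥0∞) = (d : ℝ≥0∞) ^ n := by simp
  rw [ecard] at hself
  have e2 : ∫ z, f z ∂μ = (((d : ℝ≥0∞) ^ n)⁻¹).toReal *
      ∑ w : Fin n → Fin d, ∫ z, f z ∂(μ.map (AA σ (List.ofFn w))) := by
    conv_lhs => rw [hself]
    exact integral_avg _ _ (fun w => by
      have := Measure.isProbabilityMeasure_map (μ := μ)
        (measurable_AA σ (List.ofFn w)).aemeasurable
      infer_instance) hctop f hf ⟨C, hC⟩
  have ereal : (((d : ℝ≥0∞) ^ n)⁻¹).toReal = ((d : ℝ) ^ n)⁻¹ := by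
    rw [ENNReal.toReal_inv, ENNReal.toReal_pow, ENNReal.toReal_natCast]
  rw [Real.dist_eq, e1, e2, ereal, ← mul_sub, ← Finset.sum_sub_distrib, abs_mul,
    abs_of_pos (inv_pos.2 hpn)]
  have hdiff : ∀ w : Fin n → Fin d, |∫ z, f z ∂(ProbabilityTheory.cond volume
        (square (fun _ => σ) (List.ofFn w))) - ∫ z, f z ∂(μ.map (AA σ (List.ofFn w)))| ≤
        2 * ε / 3 := by
    intro w
    have p1 := cond_prob hd0 σ (List.ofFn w)
    have p2 := Measure.isProbabilityMeasure_map (μ := μ) (measurable_AA σ (List.ofFn w)).aemeasurable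
    have a1 := integral_close (ProbabilityTheory.cond volume
        (square (fun _ => σ) (List.ofFn w))) f (hint _ inferInstance)
        (f (corner (fun _ => σ) (List.ofFn w))) (ε / 3) (by
          filter_upwards [ProbabilityTheory.ae_cond_mem (measurableSet_square σ (List.ofFn w))]
            with z hz
          exact hosc w z hz)
    have a2 := integral_close (μ.map (AA σ (List.ofFn w))) f (hint _ inferInstance)
        (f (corner (fun _ => σ) (List.ofFn w))) (ε / 3) (by
          rw [ae_map_iff (measurable_AA σ _).aemeasurable (by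
            exact measurableSet_le (by fun_prop) measurable_const)]
          filter_upwards [hμ] with z hz
          exact hosc w _ (AA_mem_square hd0 σ _ hz))
    rw [abs_le] at a1 a2 ⊢
    constructor <;> linarith [a1.1, a1.2, a2.1, a2.2]
  have hsum : |∑ w : Fin n → Fin d, (∫ z, f z ∂(ProbabilityTheory.cond volume
        (square (fun _ => σ) (List.ofFn w))) - ∫ z, f z ∂(μ.map (AA σ (List.ofFn w))))| ≤
        (d : ℝ) ^ n * (2 * ε / 3) := by
    refine (Finset.abs_sum_le_sum_abs _ _).trans ?_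
    refine (Finset.sum_le_sum fun w _ => hdiff w).trans ?_
    rw [Finset.sum_const, Finset.card_univ, Fintype.card_fun, Fintype.card_fin, Fintype.card_fin,
      nsmul_eq_mul]
    push_cast
    exact le_rfl
  calc ((d : ℝ) ^ n)⁻¹ * _ ≤ ((d : ℝ) ^ n)⁻¹ * ((d : ℝ) ^ n * (2 * ε / 3)) := by gcongr
    _ = 2 * ε / 3 := by field_simp
    _ < ε := by linarith

/-- weak limits are unique -/
theorem weakLimit_unique {ν : ℕ → Measure (ℝ × ℝ)} {μ μ' : Measure (ℝ × ℝ)}
    [IsFiniteMeasure μ] [IsFiniteMeasure μ'] (h : WeakLimit ν μ) (h' : WeakLimit ν μ') :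
    μ = μ' := by
  apply ext_of_forall_integral_eq_of_IsFiniteMeasure
  intro f
  have hb : ∃ c, ∀ z, |f z| ≤ c := ⟨‖f‖, fun z => by
    rw [← Real.norm_eq_abs]; exact f.norm_coe_le_norm z⟩
  exact tendsto_nhds_unique (h f f.continuous hb) (h' f f.continuous hb)

end Pool.Agent.H143FP
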