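import Pool.Agent.H143FP.Meas1

/-!
# Fractal permutons: words, self-similar measures and the two entropy bounds
-/

open MeasureTheory ProbabilityTheory Filter Topology
open scoped ENNReal

namespace Pool.Agent.H143FP

variable {d : ℕ}

/-- the column number of an address -/
def colnum : List (Fin d) → ℕ
  | [] => 0
  | i :: w => colnum w * d + (i : ℕ)

lemma colnum_lt (w : List (Fin d)) : colnum w < d ^ w.length := by
  induction w with
  | nil => simp [colnum]
  | cons i w ih =>
    simp only [colnum, List.length_cons, pow_succ]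
    have := i.isLt
    calc colnum w * d + (i : ℕ) < colnum w * d + d := by omega
      _ = (colnum w + 1) * d := by ring
      _ ≤ d ^ w.length * d := Nat.mul_le_mul_right _ ih

lemma colnum_inj : ∀ w w' : List (Fin d), w.length = w'.length → colnum w = colnum w' → w = w' := by
  intro w
  induction w with
  | nil =>
    intro w' h _
    exact (List.length_eq_zero_iff.1 h.symm).symm
  | cons i w ih =>
    intro w' h hc
    cases w' with
    | nil => simp at h
    | cons j w' =>
      simp only [colnum] at hc
      have hi := i.isLt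
      have hj := j.isLt
      have hd : 0 < d := by omega
      have h1 : colnum w = colnum w' := by
        have e1 : (colnum w * d + (i : ℕ)) / d = colnum w := by
          rw [mul_comm, Nat.mul_add_div hd, Nat.div_eq_of_lt hi, add_zero]
        have e2 : (colnum w' * d + (j : ℕ)) / d = colnum w' := by
          rw [mul_comm, Nat.mul_add_div hd, Nat.div_eq_of_lt hj, add_zero]
        rw [← e1, ← e2, hc]
      have h2 : i = j := by
        apply Fin.ext
        rw [h1] at hc
        omega
      rw [h2, ih w' (by simpa using h) h1]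

/-- the affine map onto the kept square with address `w` -/
noncomputable def AA (σ : Equiv.Perm (Fin d)) (w : List (Fin d)) (z : ℝ × ℝ) : ℝ × ℝ :=
  (((colnum w : ℝ) + z.1) / (d : ℝ) ^ w.length,
    ((colnum (w.map σ) : ℝ) + z.2) / (d : ℝ) ^ w.length)

/-- the affine maps of the first level -/
noncomputable def TT (σ : Equiv.Perm (Fin d)) (i : Fin d) (z : ℝ × ℝ) : ℝ × ℝ :=
  ((((i : ℕ) : ℝ) + z.1) / d, (((σ i : ℕ) : ℝ) + z.2) / d)

lemma AA_nil (σ : Equiv.Perm (Fin d)) : AA σ [] = id := by
  funext z
  simp [AA, colnum]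

lemma AA_TT (σ : Equiv.Perm (Fin d)) (w : List (Fin d)) (i : Fin d) (z : ℝ × ℝ) :
    AA σ w (TT σ i z) = AA σ (i :: w) z := by
  have hd : (0 : ℝ) < d := by exact_mod_cast i.pos
  simp only [AA, TT, colnum, List.map_cons, List.length_cons, Nat.cast_add, Nat.cast_mul]
  refine Prod.ext ?_ ?_
  · simp only
    rw [pow_succ]
    field_simp
    ring
  · simp only
    rw [pow_succ]
    field_simp
    ring

lemma measurable_AA (σ : Equiv.Perm (Fin d)) (w : List (Fin d)) : Measurable (AA σ w) := by
  unfold AA
  fun_prop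

lemma measurable_TT (σ : Equiv.Perm (Fin d)) (i : Fin d) : Measurable (TT σ i) := by
  unfold TT
  fun_prop

/-- self-similar measures -/
def SelfSim (σ : Equiv.Perm (Fin d)) (μ : Measure (ℝ × ℝ)) : Prop :=
  μ = ∑ i : Fin d, (d : ℝ≥0∞)⁻¹ • μ.map (TT σ i)

lemma map_sum' {ι α β : Type*} [MeasurableSpace α] [MeasurableSpace β] (s : Finset ι)
    (m : ι → Measure α) {f : α → β} (hf : Measurable f) :
    (∑ i ∈ s, m i).map f = ∑ i ∈ s, (m i).map f := by
  ext E hE
  rw [Measure.map_apply hf hE, Measure.finsetSum_apply, Measure.finsetSum_apply]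
  exact Finset.sum_congr rfl fun i _ => (Measure.map_apply hf hE).symm

lemma selfSim_step {σ : Equiv.Perm (Fin d)} {μ : Measure (ℝ × ℝ)} (h : SelfSim σ μ)
    {ι : Type*} [Fintype ι] (word : ι → List (Fin d)) (c : ℝ≥0∞)
    (hw : μ = ∑ w : ι, c • μ.map (AA σ (word w))) :
    μ = ∑ w : ι × Fin d, (c * (d : ℝ≥0∞)⁻¹) • μ.map (AA σ (w.2 :: word w.1)) := by
  have h1 : ∀ w : ι, μ.map (AA σ (word w)) =
      ∑ i : Fin d, (d : ℝ≥0∞)⁻¹ • μ.map (AA σ (i :: word w)) := by
    intro w
    conv_lhs => rw [h]
    rw [map_sum' _ _ (measurable_AA σ _)]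
    apply Finset.sum_congr rfl
    intro i _
    rw [Measure.map_smul, Measure.map_map (measurable_AA σ _) (measurable_TT σ i)]
    congr 2
    funext z
    exact AA_TT σ _ i z
  conv_lhs => rw [hw]
  rw [Fintype.sum_prod_type]
  apply Finset.sum_congr rfl
  intro w _
  rw [h1, Finset.smul_sum]
  apply Finset.sum_congr rfl
  intro i _
  rw [smul_smul]

lemma selfSim_iterate {σ : Equiv.Perm (Fin d)} {μ : Measure (ℝ × ℝ)} (h : SelfSim σ μ) (k : ℕ) :
    μ = ∑ w : Fin k → Fin d, (Fintype.card (Fin k → Fin d) : ℝ≥0∞)⁻¹ •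
      μ.map (AA σ (List.ofFn w)) := by
  induction k with
  | zero =>
    simp [AA_nil]
  | succ k ih =>
    have h1 := selfSim_step h (fun w : Fin k → Fin d => List.ofFn w) _ ih
    conv_lhs => rw [h1]
    apply Fintype.sum_equiv ((Equiv.prodComm _ _).trans (Fin.consEquiv fun _ => Fin d))
    rintro ⟨w, i⟩
    have hword : List.ofFn (((Equiv.prodComm _ _).trans (Fin.consEquiv fun _ => Fin d)) (w, i)) =
        i :: List.ofFn w := List.ofFn_cons i w
    rw [hword]
    congr 1
    rw [Fintype.card_fun, Fintype.card_fun, Fintype.card_fin, Fintype.card_fin, Fintype.card_fin]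
    push_cast
    rw [pow_succ, ENNReal.mul_inv (Or.inr (ENNReal.natCast_ne_top d))
      (Or.inl (ENNReal.pow_ne_top (ENNReal.natCast_ne_top d)))]

/-- The upper bound along `n = d ^ k`. -/
theorem entropy_upper {σ : Equiv.Perm (Fin d)} {μ : Measure (ℝ × ℝ)} [IsProbabilityMeasure μ]
    (h : SelfSim σ μ) (hd : 0 < d) (hμ : ∀ᵐ z ∂μ, (0 ≤ z.1 ∧ z.1 < 1) ∧ (0 ≤ z.2 ∧ z.2 < 1))
    (k : ℕ) :
    samplingEntropy μ (d ^ k) ≤ (d : ℝ) ^ k * (2 * Real.log 2 + 1 / 2) := by
  classical
  have : Nonempty (Fin d) := ⟨⟨0, hd⟩⟩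
  have hdR : (0 : ℝ) < d := by exact_mod_cast hd
  set n := d ^ k with hn
  have hcard : n = Fintype.card (Fin k → Fin d) := by simp [hn]
  have hself := selfSim_iterate h k
  have hlaw := fun π : Equiv.Perm (Fin n) => law_formula (n := n) μ
    (fun w : Fin k → Fin d => AA σ (List.ofFn w)) (fun w => measurable_AA σ _) hself π
  unfold samplingEntropy
  rw [Finset.sum_congr rfl (fun π _ => by rw [hlaw π])]
  have hcn : Function.Injective (fun w : Fin k → Fin d => colnum (List.ofFn w)) := by
    intro w w' hw
    exact List.ofFn_injective (colnum_inj _ _ (by simp) hw)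
  have hrn : Function.Injective (fun w : Fin k → Fin d => colnum ((List.ofFn w).map σ)) := by
    intro w w' hw
    have := colnum_inj _ _ (by simp) hw
    exact List.ofFn_injective (List.map_injective_iff.2 σ.injective this)
  have key := finite_upper (C := Fin k → Fin d) hcard
    (fun w => colnum (List.ofFn w)) (fun w => colnum ((List.ofFn w).map σ)) hcn hrn
    (fun g π => (Measure.pi fun _ : Fin n => μ).real
      {z | pattern (fun s => AA σ (List.ofFn (g s)) (z s)) = π})
    (fun _ _ => measureReal_nonneg)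
    (fun g => sum_pattern_prob _ _ (fun i => (measurable_AA σ _).comp (measurable_pi_apply i)))
    (by
      intro g π hπ
      have hae : ∀ᵐ z ∂(Measure.pi fun _ : Fin n => μ),
          ∀ s, (0 ≤ (z s).1 ∧ (z s).1 < 1) ∧ (0 ≤ (z s).2 ∧ (z s).2 < 1) := by
        rw [ae_all_iff]
        intro s
        have hmp := measurePreserving_eval (fun _ : Fin n => μ) s
        exact hmp.quasiMeasurePreserving.ae hμ
      have hpos : (Measure.pi fun _ : Fin n => μ)
          {z | pattern (fun s => AA σ (List.ofFn (g s)) (z s)) = π} ≠ 0 := by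
        intro h0
        apply hπ
        simp [Measure.real, h0]
      obtain ⟨z, hz1, hz2⟩ : ∃ z : Fin n → ℝ × ℝ, pattern (fun s => AA σ (List.ofFn (g s)) (z s)) = π ∧
          ∀ s, (0 ≤ (z s).1 ∧ (z s).1 < 1) ∧ (0 ≤ (z s).2 ∧ (z s).2 < 1) := by
        by_contra hcon
        push Not at hcon
        apply hpos
        apply measure_mono_null _ hae
        intro z hz
        simp only [Set.mem_compl_iff]
        intro hz'
        obtain ⟨s, hs⟩ := hcon z hz
        have := hz' s
        exact absurd this.2.2 (not_lt.2 (hs this.1 this.2.1))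
      rw [← hz1]
      have hpow : (0 : ℝ) < (d : ℝ) ^ k := by positivity
      apply compat_of_order hcn hrn
      · intro s t hst
        simp only [AA, List.length_ofFn]
        apply div_lt_div_of_pos_right _ hpow
        have h1 : ((colnum (List.ofFn (g s)) : ℝ)) + 1 ≤ colnum (List.ofFn (g t)) := by
          exact_mod_cast hst
        have h2 := (hz2 s).1.2
        have h3 := (hz2 t).1.1
        linarith
      · intro s t hst
        simp only [AA, List.length_ofFn]
        apply div_lt_div_of_pos_right _ hpow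
        have h1 : ((colnum ((List.ofFn (g s)).map σ) : ℝ)) + 1 ≤
            colnum ((List.ofFn (g t)).map σ) := by
          exact_mod_cast hst
        have h2 := (hz2 s).2.2
        have h3 := (hz2 t).2.1
        linarith)
  have e : (Fintype.card (Fin k → Fin d) : ℝ) = (d : ℝ) ^ k := by simp
  rw [e] at key
  exact key

end Pool.Agent.H143FP
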